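import Mathlib

/-!
# A surjection between groups with the same finite quotients
-/

set_option autoImplicit false

namespace Pool.Agent.Helper460_PR

lemma finite_hom (Λ Q : Type) [Group Λ] [Group Q] [Finite Q] (h : Group.FG Λ) :
    Finite (Λ →* Q) := by
  obtain ⟨S, hS, hfin⟩ := Group.fg_iff.1 h
  have := hfin.to_subtype
  refine Finite.of_injective (fun (k : Λ →* Q) => fun s : S => k s) fun k k' hk => ?_
  exact MonoidHom.eq_of_eqOn_dense hS fun x hx => congrFun hk ⟨x, hx⟩

/-- A surjection from a finitely generated residually finite group onto a group with the same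
finite quotients is injective. -/
theorem hopf {Λ Γ : Type} [Group Λ] [Group Γ] (hfg : Group.FG Λ)
    (hRF : ∀ g : Λ, g ≠ 1 → ∃ H : Subgroup Λ, H.index ≠ 0 ∧ g ∉ H)
    (hq : ∀ (Q : Type) [Group Q] [Finite Q],
      (∃ f : Λ →* Q, Function.Surjective f) ↔ (∃ f : Γ →* Q, Function.Surjective f))
    (h : Λ →* Γ) (hs : Function.Surjective h) : Function.Injective h := by
  classical
  rw [injective_iff_map_eq_one]
  intro x hx
  by_contra hne
  obtain ⟨H, hH, hxH⟩ := hRF x hne
  have hHf : H.FiniteIndex := ⟨hH⟩
  have hNf : H.normalCore.FiniteIndex := inferInstance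
  have hxN : x ∉ H.normalCore := fun h' => hxH (H.normalCore_le h')
  let Q := Λ ⧸ H.normalCore
  have : Finite Q := Subgroup.finite_quotient_of_finiteIndex
  have hfΛ : Finite (Λ →* Q) := finite_hom Λ Q hfg
  let ev : Λ →* ((Λ →* Q) → Q) :=
    { toFun := fun y k => k y
      map_one' := by funext k; exact map_one k
      map_mul' := fun a b => by funext k; exact map_mul k a b }
  have hRfin : Finite ev.range := inferInstance
  obtain ⟨r, hr⟩ := (hq ev.range).1 ⟨ev.rangeRestrict, ev.rangeRestrict_surjective⟩
  let F : (Λ →* Q) → (Γ →* Q) := fun k =>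
    (Pi.evalMonoidHom (fun _ : Λ →* Q => Q) k).comp (ev.range.subtype.comp r)
  have hF : Function.Injective F := by
    intro k k' hk
    ext y
    obtain ⟨z, hz⟩ := hr ⟨ev y, ⟨y, rfl⟩⟩
    have h1 := congrArg (fun t : Γ →* Q => t z) hk
    have h2 : (r z).1 k = (r z).1 k' := h1
    rw [hz] at h2
    exact h2
  let C : (Γ →* Q) → (Λ →* Q) := fun k => k.comp h
  have hC : Function.Injective C := by
    intro k k' hk
    ext y
    obtain ⟨z, rfl⟩ := hs y
    exact congrArg (fun t : Λ →* Q => t z) hk
  have hsurj : Function.Surjective (C ∘ F) := Finite.surjective_of_injective (hC.comp hF)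
  obtain ⟨k, hk⟩ := hsurj (QuotientGroup.mk' H.normalCore)
  have h1 := congrArg (fun t : Λ →* Q => t x) hk
  have h2 : (F k) (h x) = QuotientGroup.mk' H.normalCore x := h1
  rw [hx, map_one] at h2
  exact hxN ((QuotientGroup.eq_one_iff x).1 h2.symm)

end Pool.Agent.Helper460_PR
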