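import Pool.Agent.Helper460_PR.Inst
import Pool.Agent.Helper460_PR.Hopf

/-!
# Quotients of the group generated by the transvections
-/

set_option autoImplicit false
set_option linter.unusedSectionVars false

namespace Pool.Agent.Helper460_PR

open FreeGroup (of)
open Matrix
open Pool.Agent.Helper460_OutF Pool.Agent.Helper460_CSP

/-- The reduction of the action on the abelianisation. -/
def Mp (m p : ℕ) : SA m →* Matrix (Fin m) (Fin m) (ZMod p) :=
  ((Int.castRingHom (ZMod p)).mapMatrix (m := Fin m)).toMonoidHom.comp (mAh m)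

lemma Mp_tv {m p : ℕ} {x : SA m} {i j : Fin m} (h : mA x.1 = transvection j i 1) :
    Mp m p x = transvection j i 1 := by
  show (Int.castRingHom (ZMod p)).mapMatrix (mA x.1) = _
  rw [h]
  ext a b
  simp only [RingHom.mapMatrix_apply, Matrix.map_apply, transvection, Matrix.add_apply,
    Matrix.one_apply, Matrix.single_apply, map_add]
  split_ifs <;> simp

/-- A representation of degree at most `m` over a prime field of odd order is trivial or has
degree `m` and kernel in the congruence kernel. -/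
lemma rep {m n p : ℕ} [Fact p.Prime] (hp : p ≠ 2) (hm : 5 ≤ m) (hn : n ≤ m)
    (φ : SA m →* SpecialLinearGroup (Fin n) (ZMod p)) :
    (∀ g, φ g = 1) ∨ (n = m ∧ ∀ g, φ g = 1 → Mp m p g = 1) := by
  have h2 : (2 : ZMod p) ≠ 0 := by
    intro h
    have h' : ((2 : ℕ) : ZMod p) = 0 := by exact_mod_cast h
    rw [ZMod.natCast_eq_zero_iff] at h'
    exact hp ((Nat.prime_dvd_prime_iff_eq (Fact.out) Nat.prime_two).1 h')
  let Φ : SA m →* Module.End (ZMod p) (Fin n → ZMod p) :=
    { toFun := fun g => Matrix.toLin' (φ g).1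
      map_one' := by rw [map_one]; exact Matrix.toLin'_one
      map_mul' := fun a b => by
        rw [map_mul]
        exact Matrix.toLin'_mul _ _ }
  have hΦ : ∀ g, Φ g = 1 ↔ φ g = 1 := by
    intro g
    constructor
    · intro h
      apply Subtype.ext
      have h3 : Matrix.toLin' (φ g).1 = Matrix.toLin' 1 := by
        rw [Matrix.toLin'_one]; exact h
      exact Matrix.toLin'.injective h3
    · intro h
      show Matrix.toLin' (φ g).1 = 1
      rw [h]
      exact Matrix.toLin'_one
  have hfr : Module.finrank (ZMod p) (Fin n → ZMod p) = n := by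
    rw [Module.finrank_fintype_fun_eq_card, Fintype.card_fin]
  rcases (sys m).main Φ h2 hm (by rw [hfr]; exact hn) (Mp m p)
    (fun i j hij => Mp_tv (mA_ro hij)) (fun i j hij => Mp_tv (mA_la hij)) with h | ⟨h1, h⟩
  · left
    exact fun g => (hΦ g).1 (h g)
  · right
    exact ⟨hfr.symm.trans h1, fun g hg => h g ((hΦ g).2 hg)⟩

/-- **Main theorem.** -/
theorem prof {n m : ℕ} (hn : 3 ≤ n) (hm : 5 ≤ m) (hnm : n ≤ m) (Λ : Type) [Group Λ]
    (hRF : ∀ g : Λ, g ≠ 1 → ∃ H : Subgroup Λ, H.index ≠ 0 ∧ g ∉ H)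
    (hq : ∀ (Q : Type) [Group Q] [Finite Q], (∃ f : Λ →* Q, Function.Surjective f) ↔
      (∃ f : SpecialLinearGroup (Fin n) ℤ →* Q, Function.Surjective f))
    (f : SA m →* Λ) (hf : Function.Surjective f) :
    m = n ∧ Nonempty (Λ ≃* SpecialLinearGroup (Fin n) ℤ) := by
  have key : ∀ p : ℕ, p.Prime → p ≠ 2 → n = m ∧ ∀ g, f g = 1 → Mp m p g = 1 := by
    intro p hp hp2
    have : Fact p.Prime := ⟨hp⟩
    let r : SpecialLinearGroup (Fin n) ℤ →* SpecialLinearGroup (Fin n) (ZMod p) :=
      SpecialLinearGroup.map (Int.castRingHom (ZMod p))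
    obtain ⟨φ, hφ⟩ := (hq r.range).2 ⟨r.rangeRestrict, r.rangeRestrict_surjective⟩
    rcases rep hp2 hm hnm (r.range.subtype.comp (φ.comp f)) with h | ⟨h1, h⟩
    · exfalso
      let i0 : Fin n := ⟨0, by omega⟩
      let i1 : Fin n := ⟨1, by omega⟩
      have h01 : i0 ≠ i1 := by
        intro h; exact absurd (congrArg Fin.val h) (by norm_num [i0, i1])
      let t : SpecialLinearGroup (Fin n) ℤ :=
        ⟨transvection i0 i1 1, det_transvection_of_ne _ _ h01 _⟩
      obtain ⟨y, hy⟩ := hφ ⟨r t, ⟨t, rfl⟩⟩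
      obtain ⟨x, rfl⟩ := hf y
      have h3 : r.range.subtype (φ (f x)) = 1 := h x
      rw [hy] at h3
      have h4 : r t = 1 := h3
      have h5 := congrArg (fun A : SpecialLinearGroup (Fin n) (ZMod p) => A.1 i0 i1) h4
      have h6 : ((Int.castRingHom (ZMod p)) ((transvection i0 i1 (1 : ℤ)) i0 i1)) =
        (1 : Matrix (Fin n) (Fin n) (ZMod p)) i0 i1 := h5
      rw [Matrix.one_apply_ne h01] at h6
      simp [transvection, Matrix.one_apply_ne h01] at h6
    · exact ⟨h1, fun g hg => h g (by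
        show r.range.subtype (φ (f g)) = 1
        rw [hg, map_one, map_one])⟩
  have hnm' : n = m := (key 3 Nat.prime_three (by norm_num)).1
  subst hnm'
  refine ⟨rfl, ?_⟩
  have hker : f.ker ≤ (pis n).ker := by
    intro g hg
    rw [MonoidHom.mem_ker] at hg ⊢
    apply Subtype.ext
    show mA g.1 = 1
    ext i j
    by_contra hne
    have hd : mA g.1 i j - (1 : Matrix (Fin n) (Fin n) ℤ) i j ≠ 0 := sub_ne_zero.2 hne
    obtain ⟨p, hp1, hp2⟩ := Nat.exists_infinite_primes
      ((mA g.1 i j - (1 : Matrix (Fin n) (Fin n) ℤ) i j).natAbs + 3)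
    have h1 := (key p hp2 (by omega)).2 g hg
    have h2 := congrArg (fun A : Matrix (Fin n) (Fin n) (ZMod p) => A i j) h1
    have h3 : ((mA g.1 i j : ℤ) : ZMod p) = (1 : Matrix (Fin n) (Fin n) (ZMod p)) i j := h2
    have h4 : ((mA g.1 i j - (1 : Matrix (Fin n) (Fin n) ℤ) i j : ℤ) : ZMod p) = 0 := by
      rw [Int.cast_sub, h3, Matrix.one_apply, Matrix.one_apply]
      split_ifs <;> simp
    rw [ZMod.intCast_zmod_eq_zero_iff_dvd] at h4
    have h5 := Int.le_of_dvd (Int.natCast_pos.2 (Int.natAbs_pos.2 hd))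
      ((Int.dvd_natAbs).2 h4)
    omega
  let h : Λ →* SpecialLinearGroup (Fin n) ℤ := (f.liftOfSurjective hf) ⟨pis n, hker⟩
  have hh : ∀ g, h (f g) = pis n g := fun g => by
    show (f.liftOfSurjective hf) ⟨pis n, hker⟩ (f g) = _
    exact MonoidHom.liftOfRightInverse_comp_apply _ _ _ _ _
  have hs : Function.Surjective h := by
    intro A
    obtain ⟨g, hg⟩ := pis_surj n A
    exact ⟨f g, (hh g).trans hg⟩
  have hfg : Group.FG Λ := by
    have := SA_fg n
    exact Group.fg_of_surjective hf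
  exact ⟨MulEquiv.ofBijective h ⟨hopf hfg hRF hq h hs, hs⟩⟩

end Pool.Agent.Helper460_PR
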