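import Pool.Agent.Helper460_OutF.Basic
import Pool.Agent.Helper460_CSP.Sil2

/-!
# Relations between Nielsen transvections and signed permutations
-/

set_option autoImplicit false
set_option linter.unusedSectionVars false

namespace Pool.Agent.Helper460_PR

open FreeGroup (of)
open Pool.Agent.Helper460_OutF Pool.Agent.Helper460_CSP
open Pool.Agent.Helper156.OF (SP toAut)

variable {ι : Type} [DecidableEq ι] [Fintype ι]

/-- `x_i ↦ x_i x_j`. -/
def ro (i j : ι) : MulAut (FreeGroup ι) := rr i (of j)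

/-- `x_i ↦ x_j x_i`. -/
def la (i j : ι) : MulAut (FreeGroup ι) := ll i (of j)⁻¹

/-- `x_i ↦ x_i⁻¹`. -/
def ep (i : ι) : MulAut (FreeGroup ι) := toAut (rhoP i)

/-- `x_i ↦ x_j`, `x_j ↦ x_i⁻¹`. -/
def sw (i j : ι) : MulAut (FreeGroup ι) := ro i j * (ro j i)⁻¹ * la i j

lemma ro_self {i j : ι} (h : i ≠ j) : ro i j (of i) = of i * of j := by
  unfold ro; rw [rr_self, kil_ne h.symm]

lemma ro_ne {i k : ι} (j : ι) (h : k ≠ i) : ro i j (of k) = of k := rr_ne h _

lemma roi_self {i j : ι} (h : i ≠ j) : (ro i j)⁻¹ (of i) = of i * (of j)⁻¹ := by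
  unfold ro; rw [← map_inv, rr_self, map_inv, kil_ne h.symm]

lemma roi_ne {i k : ι} (j : ι) (h : k ≠ i) : (ro i j)⁻¹ (of k) = of k := by
  unfold ro; rw [← map_inv]; exact rr_ne h _

lemma la_self {i j : ι} (h : i ≠ j) : la i j (of i) = of j * of i := by
  unfold la; rw [ll_self, map_inv, kil_ne h.symm, inv_inv]

lemma la_ne {i k : ι} (j : ι) (h : k ≠ i) : la i j (of k) = of k := ll_ne h _

lemma ep_self (i : ι) : ep i (of i) = (of i)⁻¹ := by
  unfold ep; rw [toAut_rhoP, if_pos rfl]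

lemma ep_ne {i k : ι} (h : k ≠ i) : ep i (of k) = of k := by
  unfold ep; rw [toAut_rhoP, if_neg h]

lemma sw_fst {i j : ι} (h : i ≠ j) : sw i j (of i) = of j := by
  unfold sw
  simp only [MulAut.mul_apply, la_self h, map_mul, roi_self h.symm, roi_ne i h, ro_ne j h.symm,
    map_inv, ro_self h]
  group

lemma sw_snd {i j : ι} (h : i ≠ j) : sw i j (of j) = (of i)⁻¹ := by
  unfold sw
  simp only [MulAut.mul_apply, la_ne j h.symm, map_mul, roi_self h.symm, ro_ne j h.symm,
    map_inv, ro_self h]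
  group

lemma sw_ne {i j k : ι} (h1 : k ≠ i) (h2 : k ≠ j) : sw i j (of k) = of k := by
  unfold sw
  simp only [MulAut.mul_apply, la_ne j h1, roi_ne i h2, ro_ne j h1]

lemma ep_sq (i : ι) : ep i * ep i = 1 := by
  apply aut_ext
  intro k
  rw [MulAut.mul_apply, MulAut.one_apply]
  by_cases h : k = i
  · subst h; rw [ep_self, map_inv, ep_self, inv_inv]
  · rw [ep_ne h, ep_ne h]

lemma ep_comm (i j : ι) : ep i * ep j = ep j * ep i := by
  apply aut_ext
  intro k
  rw [MulAut.mul_apply, MulAut.mul_apply]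
  by_cases h : k = i <;> by_cases h' : k = j
  · subst h; subst h'; rfl
  · subst h; rw [ep_self, ep_ne h', ep_self, map_inv, ep_ne h']
  · subst h'; rw [ep_self, ep_ne h, ep_self, map_inv, ep_ne h]
  · rw [ep_ne h, ep_ne h', ep_ne h]

lemma sw_sq {i j : ι} (h : i ≠ j) : sw i j * sw i j = ep i * ep j := by
  apply aut_ext
  intro k
  rw [MulAut.mul_apply, MulAut.mul_apply]
  by_cases h1 : k = i
  · subst h1; rw [sw_fst h, sw_snd h, ep_ne h, ep_self]
  · by_cases h2 : k = j
    · subst h2; rw [sw_snd h, map_inv, sw_fst h, ep_self, map_inv, ep_ne h.symm]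
    · rw [sw_ne h1 h2, sw_ne h1 h2, ep_ne h2, ep_ne h1]

lemma sw_ep {a b : ι} (h : a ≠ b) (i : ι) : sw a b * ep (Equiv.swap a b i) = ep i * sw a b := by
  apply aut_ext
  intro k
  rw [MulAut.mul_apply, MulAut.mul_apply]
  rcases eq_or_ne i a with rfl | hia
  · rw [Equiv.swap_apply_left]
    by_cases h1 : k = i
    · subst h1; rw [ep_ne h, sw_fst h, ep_ne h.symm]
    · by_cases h2 : k = b
      · subst h2; rw [ep_self, map_inv, sw_snd h, map_inv, ep_self]
      · rw [ep_ne h2, sw_ne h1 h2, ep_ne h1]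
  · rcases eq_or_ne i b with rfl | hib
    · rw [Equiv.swap_apply_right]
      by_cases h1 : k = a
      · subst h1; rw [ep_self, map_inv, sw_fst h, ep_self]
      · by_cases h2 : k = i
        · subst h2; rw [ep_ne h.symm, sw_snd h, map_inv, ep_ne h]
        · rw [ep_ne h1, sw_ne h1 h2, ep_ne h2]
    · rw [Equiv.swap_apply_of_ne_of_ne hia hib]
      by_cases h1 : k = a
      · subst h1; rw [ep_ne hia.symm, sw_fst h, ep_ne hib.symm]
      · by_cases h2 : k = b
        · subst h2; rw [ep_ne hib.symm, sw_snd h, map_inv, ep_ne hia.symm]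
        · by_cases h3 : k = i
          · subst h3; rw [ep_self, map_inv, sw_ne h1 h2, ep_self]
          · rw [ep_ne h3, sw_ne h1 h2, ep_ne h3]

/-- Transvections commute with the other sign changes. -/
lemma ro_ep {a b i : ι} (h : a ≠ b) (h1 : i ≠ a) (h2 : i ≠ b) : ro a b * ep i = ep i * ro a b := by
  apply aut_ext
  intro k
  rw [MulAut.mul_apply, MulAut.mul_apply]
  by_cases h3 : k = a
  · subst h3; rw [ep_ne h1.symm, ro_self h, map_mul, ep_ne h1.symm, ep_ne h2.symm]
  · by_cases h4 : k = i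
    · subst h4; rw [ep_self, map_inv, ro_ne b h3, ep_self]
    · rw [ep_ne h4, ro_ne b h3, ep_ne h4]

lemma la_ro {a b : ι} (h : a ≠ b) : la a b * (ep a * ep b) = (ep a * ep b) * ro a b := by
  apply aut_ext
  intro k
  simp only [MulAut.mul_apply]
  by_cases h3 : k = a
  · subst h3
    rw [ep_ne h, ep_self, map_inv, la_self h, ro_self h, map_mul, map_mul, ep_ne h, ep_self,
      ep_self, map_inv, ep_ne h.symm, mul_inv_rev]
  · by_cases h4 : k = b
    · subst h4; rw [ep_self, map_inv, ep_ne h3, map_inv, la_ne k h3, ro_ne k h3, ep_self, map_inv,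
        ep_ne h3]
    · rw [ep_ne h4, ep_ne h3, la_ne b h3, ro_ne b h3, ep_ne h4, ep_ne h3]

lemma ro_braid {i j k : ι} (hij : i ≠ j) (hjk : j ≠ k) (hik : i ≠ k) :
    ro j k * ro i j = ro i j * ro j k * ro i k := by
  apply aut_ext
  intro x
  simp only [MulAut.mul_apply]
  by_cases h1 : x = i
  · subst h1
    rw [ro_self hij, ro_self hik, map_mul, map_mul, map_mul, ro_ne k hij, ro_self hjk,
      ro_ne k hjk.symm, ro_self hij, ro_ne j hik.symm, mul_assoc]
  · by_cases h2 : x = j
    · subst h2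
      rw [ro_ne x h1, ro_ne k h1, ro_self hjk, map_mul, ro_ne x h1, ro_ne x hik.symm]
    · rw [ro_ne j h1, ro_ne k h1, ro_ne k h2, ro_ne j h1]

lemma ro_ep_snd {i j : ι} (hij : i ≠ j) : ro i j * ep j * ro i j = ep j := by
  apply aut_ext
  intro x
  simp only [MulAut.mul_apply]
  by_cases h1 : x = i
  · subst h1
    rw [ro_self hij, map_mul, map_mul, ep_ne hij, ep_self, map_inv, ro_self hij, ro_ne j hij.symm]
    group
  · by_cases h2 : x = j
    · subst h2
      rw [ro_ne x h1, ep_self, map_inv, ro_ne x h1]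
    · rw [ro_ne j h1, ep_ne h2, ro_ne j h1]

lemma ro_la {i j k : ι} (hij : i ≠ j) (hik : i ≠ k) : ro i j * la i k = la i k * ro i j := by
  apply aut_ext
  intro x
  simp only [MulAut.mul_apply]
  by_cases h1 : x = i
  · subst h1
    rw [la_self hik, ro_self hij, map_mul, map_mul, ro_ne j hik.symm, ro_self hij, la_self hik,
      la_ne k hij.symm, mul_assoc]
  · rw [la_ne k h1, ro_ne j h1, la_ne k h1]

lemma ro_ro_snd {i j k : ι} (hij : i ≠ j) (hkj : k ≠ j) : ro i j * ro k j = ro k j * ro i j := by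
  rcases eq_or_ne i k with rfl | hik
  · rfl
  apply aut_ext
  intro x
  simp only [MulAut.mul_apply]
  by_cases h1 : x = i
  · subst h1
    rw [ro_ne j hik, ro_self hij, map_mul, ro_ne j hik, ro_ne j hkj.symm]
  · by_cases h2 : x = k
    · subst h2
      rw [ro_self hkj, map_mul, ro_ne j h1, ro_ne j hij.symm, ro_self hkj]
    · rw [ro_ne j h2, ro_ne j h1, ro_ne j h2]

lemma ro_ro_ne {i j k l : ι} (hij : i ≠ j) (hkl : k ≠ l) (hik : i ≠ k) (hil : i ≠ l)
    (hjk : j ≠ k) : ro i j * ro k l = ro k l * ro i j := by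
  apply aut_ext
  intro x
  simp only [MulAut.mul_apply]
  by_cases h1 : x = i
  · subst h1
    rw [ro_ne l hik, ro_self hij, map_mul, ro_ne l hik, ro_ne l hjk]
  · by_cases h2 : x = k
    · subst h2
      rw [ro_self hkl, map_mul, ro_ne j h1, ro_ne j hil.symm, ro_self hkl]
    · rw [ro_ne l h2, ro_ne j h1, ro_ne l h2]

end Pool.Agent.Helper460_PR
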