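import Pool.Agent.Helper460_PR.Lin4
import Pool.Agent.Helper460_PR.Rel
import Pool.Agent.Helper460_CSP.Sur
import Pool.Agent.H185.ZM.Euc

/-!
# The group generated by the transvections
-/

set_option autoImplicit false
set_option linter.unusedSectionVars false

namespace Pool.Agent.Helper460_PR

open FreeGroup (of)
open Pool.Agent.Helper460_OutF Pool.Agent.Helper460_CSP

variable {m : ℕ}

/-- The set of the transvections. -/
def TT (m : ℕ) : Set (MulAut (FreeGroup (Fin m))) :=
  {τ | ∃ i j, i ≠ j ∧ (τ = ro i j ∨ τ = la i j)}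

/-- The group generated by the transvections. -/
def SA (m : ℕ) : Subgroup (MulAut (FreeGroup (Fin m))) := Subgroup.closure (TT m)

lemma ro_mem (i j : Fin m) : ro i j ∈ SA m := by
  by_cases h : i = j
  · subst h
    have : ro i i = 1 := by
      apply aut_ext
      intro k
      by_cases hk : k = i
      · subst hk
        unfold ro
        rw [rr_self, kil_self, mul_one, MulAut.one_apply]
      · rw [ro_ne i hk, MulAut.one_apply]
    rw [this]
    exact one_mem _
  · exact Subgroup.subset_closure ⟨i, j, h, Or.inl rfl⟩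

lemma la_mem (i j : Fin m) : la i j ∈ SA m := by
  by_cases h : i = j
  · subst h
    have : la i i = 1 := by
      apply aut_ext
      intro k
      by_cases hk : k = i
      · subst hk
        unfold la
        rw [ll_self, map_inv, kil_self, inv_one, inv_one, one_mul, MulAut.one_apply]
      · rw [la_ne i hk, MulAut.one_apply]
    rw [this]
    exact one_mem _
  · exact Subgroup.subset_closure ⟨i, j, h, Or.inr rfl⟩

lemma sw_mem (i j : Fin m) : sw i j ∈ SA m :=
  mul_mem (mul_mem (ro_mem i j) (inv_mem (ro_mem j i))) (la_mem i j)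

lemma ep_mem (i j : Fin m) : ep i * ep j ∈ SA m := by
  by_cases h : i = j
  · subst h
    rw [ep_sq]
    exact one_mem _
  · rw [← sw_sq h]
    exact mul_mem (sw_mem i j) (sw_mem i j)

/-- The relations. -/
def sys (m : ℕ) : Sys m (SA m) where
  ρ i j := ⟨ro i j, ro_mem i j⟩
  l i j := ⟨la i j, la_mem i j⟩
  s i j := ⟨sw i j, sw_mem i j⟩
  e i j := ⟨ep i * ep j, ep_mem i j⟩
  e_sq i j := by
    apply Subtype.ext
    show ep i * ep j * (ep i * ep j) = 1
    calc ep i * ep j * (ep i * ep j) = ep i * ep j * (ep j * ep i) := by rw [ep_comm j i]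
      _ = 1 := by rw [mul_assoc, ← mul_assoc (ep j), ep_sq, one_mul, ep_sq]
  e_mul i j k := by
    apply Subtype.ext
    show ep i * ep j * (ep j * ep k) = ep i * ep k
    rw [mul_assoc, ← mul_assoc (ep j), ep_sq, one_mul]
  e_comm i j k l := by
    apply Subtype.ext
    show ep i * ep j * (ep k * ep l) = ep k * ep l * (ep i * ep j)
    have h1 : ∀ a b : Fin m, Commute (ep a) (ep b) := fun a b => ep_comm a b
    exact ((h1 i k).mul_right (h1 i l)).mul_left ((h1 j k).mul_right (h1 j l))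
  s_e a b i j h := by
    apply Subtype.ext
    show sw a b * (ep (Equiv.swap a b i) * ep (Equiv.swap a b j)) = ep i * ep j * sw a b
    rw [← mul_assoc, sw_ep h, mul_assoc, sw_ep h, mul_assoc]
  ρ_e a b i j h h1 h2 h3 h4 := by
    apply Subtype.ext
    show ro a b * (ep i * ep j) = ep i * ep j * ro a b
    rw [← mul_assoc, ro_ep h h1 h2, mul_assoc, ro_ep h h3 h4, mul_assoc]
  l_e a b h := Subtype.ext (la_ro h)
  braid i j k h1 h2 h3 := Subtype.ext (ro_braid h1 h2 h3)
  inv i j k h1 h2 h3 := by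
    apply Subtype.ext
    show ro i j * (ep j * ep k) * ro i j = ep j * ep k
    rw [mul_assoc, mul_assoc, ← ro_ep h1 h3.symm h2.symm, ← mul_assoc, ← mul_assoc,
      ro_ep_snd h1]
  ρ_l i j k h1 h2 := Subtype.ext (ro_la h1 h2)
  ρ_snd i j k h1 h2 := Subtype.ext (ro_ro_snd h1 h2)
  ρ_ne i j k l h1 h2 h3 h4 h5 := Subtype.ext (ro_ro_ne h1 h2 h3 h4 h5)
  gen := by
    have h := Subgroup.closure_closure_coe_preimage (k := TT m)
    have e : {x : SA m | ∃ i j, i ≠ j ∧ (x = ⟨ro i j, ro_mem i j⟩ ∨ x = ⟨la i j, la_mem i j⟩)} =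
        ((↑) : Subgroup.closure (TT m) → MulAut (FreeGroup (Fin m))) ⁻¹' (TT m) := by
      ext x
      constructor
      · rintro ⟨i, j, hij, rfl | rfl⟩
        · exact ⟨i, j, hij, Or.inl rfl⟩
        · exact ⟨i, j, hij, Or.inr rfl⟩
      · rintro ⟨i, j, hij, h | h⟩
        · exact ⟨i, j, hij, Or.inl (Subtype.ext h)⟩
        · exact ⟨i, j, hij, Or.inr (Subtype.ext h)⟩
    rw [e]
    exact h

lemma mA_ro {i j : Fin m} (h : i ≠ j) : mA (ro i j) = Matrix.transvection j i 1 := by
  have := mA_Ea h 1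
  unfold Ea at this
  rwa [zpow_one] at this

lemma mA_la {i j : Fin m} (h : i ≠ j) : mA (la i j) = Matrix.transvection j i 1 := by
  rw [← mA_ro h]
  ext k l
  show xv (la i j (of l)) k = xv (ro i j (of l)) k
  by_cases hl : l = i
  · subst hl
    rw [la_self h, ro_self h, xv_mul, xv_mul, add_comm]
  · rw [la_ne j hl, ro_ne j hl]

/-- The action on the abelianisation. -/
def mAh (m : ℕ) : SA m →* Matrix (Fin m) (Fin m) ℤ where
  toFun g := mA g.1
  map_one' := mA_one
  map_mul' a b := mA_mul a.1 b.1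

lemma det_one (g : SA m) : (mA g.1).det = 1 := by
  have h : (Matrix.detMonoidHom : Matrix (Fin m) (Fin m) ℤ →* ℤ).comp (mAh m) = 1 := by
    apply MonoidHom.eq_of_eqOn_dense (sys m).gen
    rintro _ ⟨i, j, hij, rfl | rfl⟩
    · show (mA (ro i j)).det = 1
      rw [mA_ro hij, Matrix.det_transvection_of_ne _ _ hij.symm]
    · show (mA (la i j)).det = 1
      rw [mA_la hij, Matrix.det_transvection_of_ne _ _ hij.symm]
  exact congrArg (fun t : SA m →* ℤ => t g) h

/-- The homomorphism to the special linear group. -/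
def pis (m : ℕ) : SA m →* Matrix.SpecialLinearGroup (Fin m) ℤ where
  toFun g := ⟨mA g.1, det_one g⟩
  map_one' := Subtype.ext mA_one
  map_mul' a b := Subtype.ext (mA_mul a.1 b.1)

lemma pis_surj (m : ℕ) : Function.Surjective (pis m) := by
  rw [← MonoidHom.range_eq_top, eq_top_iff, ← Pool.Agent.H185.ZM.EE_eq_top]
  unfold Pool.Agent.H185.ZM.EE
  rw [Subgroup.closure_le]
  rintro _ ⟨i, j, h, c, rfl⟩
  have h1 : pis m (⟨ro j i, ro_mem j i⟩ ^ c) = (pis m ⟨ro j i, ro_mem j i⟩) ^ c := map_zpow _ _ _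
  refine ⟨⟨ro j i, ro_mem j i⟩ ^ c, ?_⟩
  apply Subtype.ext
  have h2 : ((⟨ro j i, ro_mem j i⟩ : SA m) ^ c).1 = Ea j i c := by
    rw [Subgroup.coe_zpow]
    rfl
  show mA ((⟨ro j i, ro_mem j i⟩ : SA m) ^ c).1 = _
  rw [h2, mA_Ea h.symm]
  rfl

lemma SA_fg (m : ℕ) : Group.FG (SA m) := by
  rw [Group.fg_iff_subgroup_fg]
  refine (Subgroup.fg_iff _).2 ⟨TT m, rfl, ?_⟩
  have : TT m ⊆ (Set.range fun p : Fin m × Fin m => ro p.1 p.2) ∪
      (Set.range fun p : Fin m × Fin m => la p.1 p.2) := by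
    rintro _ ⟨i, j, _, rfl | rfl⟩
    · exact Or.inl ⟨(i, j), rfl⟩
    · exact Or.inr ⟨(i, j), rfl⟩
  exact ((Set.finite_range _).union (Set.finite_range _)).subset this

end Pool.Agent.Helper460_PR
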