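import Mathlib

/-!
# Representations of small degree: the linear algebra
-/

set_option autoImplicit false
set_option linter.unusedSectionVars false

namespace Pool.Agent.Helper460_PR

open Module

section basic

variable {K V : Type} [Field K] [AddCommGroup V] [Module K V]

lemma indep {κ σ : Type} (f : κ → End K V) (hc : ∀ i j, f i * f j = f j * f i)
    (χ : σ → κ → K) (hχ : Function.Injective χ) (v : σ → V)
    (hv0 : ∀ a, v a ≠ 0) (hv : ∀ a i, f i (v a) = χ a i • v a) : LinearIndependent K v := by
  have h1 := Module.End.independent_iInf_maxGenEigenspace_of_forall_mapsTo f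
    (fun i j φ => Module.End.mapsTo_maxGenEigenspace_of_comm (hc j i) φ)
  have h2 := h1.comp hχ
  refine iSupIndep.linearIndependent _ h2 (fun a => ?_) hv0
  refine (Module.End.mem_iInf_maxGenEigenspace_iff f (χ a) (v a)).2 fun j => ⟨1, ?_⟩
  rw [pow_one, LinearMap.sub_apply, hv]
  simp

lemma joint {κ : Type} (f : κ → End K V)
    (hsq : ∀ i, f i * f i = 1) (hc : ∀ i j, f i * f j = f j * f i) (g : End K V)
    (hg : ∀ i, g * f i = f i * g) (v₀ : V) (h0 : v₀ ≠ 0) (hv : g v₀ = - v₀) (s : Finset κ) :
    ∃ v : V, v ≠ 0 ∧ g v = -v ∧ ∀ i ∈ s, f i v = v ∨ f i v = -v := by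
  classical
  induction s using Finset.induction_on with
  | empty => exact ⟨v₀, h0, hv, by simp⟩
  | insert i s _ ih =>
    obtain ⟨v, h1, h2, h3⟩ := ih
    have hsq' : f i (f i v) = v := by
      have := congrArg (fun x : End K V => x v) (hsq i)
      simpa using this
    by_cases hu : v + f i v = 0
    · refine ⟨v, h1, h2, fun j hj => ?_⟩
      rcases Finset.mem_insert.1 hj with rfl | hj
      · right
        exact (neg_eq_of_add_eq_zero_right hu).symm
      · exact h3 j hj
    · refine ⟨v + f i v, hu, ?_, fun j hj => ?_⟩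
      · have e1 : g (f i v) = f i (g v) := by
          have := congrArg (fun x : End K V => x v) (hg i)
          simpa using this
        rw [map_add, e1, h2, map_neg]
        abel
      · rcases Finset.mem_insert.1 hj with rfl | hj
        · left
          rw [map_add, hsq', add_comm]
        · have e1 : f j (f i v) = f i (f j v) := by
            have := congrArg (fun x : End K V => x v) (hc j i)
            simpa using this
          rcases h3 j hj with h4 | h4
          · left; rw [map_add, e1, h4]
          · right; rw [map_add, e1, h4, map_neg]; abel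

end basic

/-- The relations which are used. -/
structure Sys (m : ℕ) (G : Type) [Group G] where
  ρ : Fin m → Fin m → G
  l : Fin m → Fin m → G
  s : Fin m → Fin m → G
  e : Fin m → Fin m → G
  e_sq : ∀ i j, e i j * e i j = 1
  e_mul : ∀ i j k, e i j * e j k = e i k
  e_comm : ∀ i j k l, e i j * e k l = e k l * e i j
  s_e : ∀ a b i j, a ≠ b → s a b * e (Equiv.swap a b i) (Equiv.swap a b j) = e i j * s a b
  ρ_e : ∀ a b i j, a ≠ b → i ≠ a → i ≠ b → j ≠ a → j ≠ b → ρ a b * e i j = e i j * ρ a b
  l_e : ∀ a b, a ≠ b → l a b * e a b = e a b * ρ a b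
  braid : ∀ i j k, i ≠ j → j ≠ k → i ≠ k → ρ j k * ρ i j = ρ i j * ρ j k * ρ i k
  inv : ∀ i j k, i ≠ j → j ≠ k → i ≠ k → ρ i j * e j k * ρ i j = e j k
  ρ_l : ∀ i j k, i ≠ j → i ≠ k → ρ i j * l i k = l i k * ρ i j
  ρ_snd : ∀ i j k, i ≠ j → k ≠ j → ρ i j * ρ k j = ρ k j * ρ i j
  ρ_ne : ∀ i j k l, i ≠ j → k ≠ l → i ≠ k → i ≠ l → j ≠ k → ρ i j * ρ k l = ρ k l * ρ i j
  gen : Subgroup.closure {x | ∃ i j, i ≠ j ∧ (x = ρ i j ∨ x = l i j)} = ⊤

namespace Sys

variable {m : ℕ} {G : Type} [Group G] (D : Sys m G)
variable {K V : Type} [Field K] [AddCommGroup V] [Module K V] (Φ : G →* End K V)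

lemma mulv (g h : G) (v : V) : Φ (g * h) v = Φ g (Φ h v) := by rw [map_mul]; rfl

lemma oneg (v : V) : Φ 1 v = v := by rw [map_one]; rfl

lemma inj (g : G) {v : V} (h : Φ g v = 0) : v = 0 := by
  have : Φ (g⁻¹ * g) v = 0 := by rw [mulv, h, map_zero]
  rwa [inv_mul_cancel, oneg] at this

lemma e_self (i : Fin m) : D.e i i = 1 := by
  have h1 := D.e_mul i i i
  exact mul_eq_left.1 h1

lemma e_symm (i j : Fin m) : D.e i j = D.e j i := by
  have h1 := D.e_mul i j i
  rw [e_self] at h1
  have h2 := D.e_sq i j
  exact mul_left_cancel (h2.trans h1.symm)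

/-- If `Φ` is trivial on the transvections `ρ` and the sign changes then it is trivial. -/
lemma triv_of (h1 : ∀ i j, i ≠ j → Φ (D.ρ i j) = 1) (h2 : ∀ i j, i ≠ j → Φ (D.l i j) = 1) (g : G) :
    Φ g = 1 := by
  have hg : g ∈ Subgroup.closure {x | ∃ i j, i ≠ j ∧ (x = D.ρ i j ∨ x = D.l i j)} := by
    rw [D.gen]; trivial
  induction hg using Subgroup.closure_induction with
  | mem x hx =>
    obtain ⟨i, j, hij, rfl | rfl⟩ := hx
    · exact h1 i j hij
    · exact h2 i j hij
  | one => exact map_one _
  | mul x y _ _ hx hy => rw [map_mul, hx, hy, mul_one]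
  | inv x _ hx =>
    have : Φ (x * x⁻¹) = 1 := by rw [mul_inv_cancel, map_one]
    rw [map_mul, hx, one_mul] at this
    exact this

section triv

variable (htr : ∀ i j, Φ (D.e i j) = 1)
include htr

lemma l_eq {i j : Fin m} (h : i ≠ j) : Φ (D.l i j) = Φ (D.ρ i j) := by
  have := congrArg Φ (D.l_e i j h)
  rwa [map_mul, map_mul, htr, one_mul, mul_one] at this

lemma ρ_sq (hm : 5 ≤ m) {i j : Fin m} (h : i ≠ j) : Φ (D.ρ i j) * Φ (D.ρ i j) = 1 := by
  obtain ⟨k, hk⟩ : ∃ k : Fin m, k ∉ ({i, j} : Finset (Fin m)) := by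
    by_contra hcon
    push Not at hcon
    have h1 : (Finset.univ : Finset (Fin m)) ⊆ {i, j} := fun x _ => hcon x
    have h2 := Finset.card_le_card h1
    rw [Finset.card_univ, Fintype.card_fin] at h2
    have h3 := Finset.card_le_two (a := i) (b := j)
    omega
  simp only [Finset.mem_insert, Finset.mem_singleton, not_or] at hk
  have := congrArg Φ (D.inv i j k h (Ne.symm hk.2) (Ne.symm hk.1))
  rw [map_mul, map_mul, htr, mul_one] at this
  exact this

lemma ρ_comm {o i j : Fin m} (hi : o ≠ i) (hj : o ≠ j) :
    Φ (D.ρ o i) * Φ (D.ρ o j) = Φ (D.ρ o j) * Φ (D.ρ o i) := by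
  have := congrArg Φ (D.ρ_l o i j hi hj)
  rwa [map_mul, map_mul, D.l_eq Φ htr hj] at this

/-- The case where the sign changes act trivially. -/
lemma triv_case [FiniteDimensional K V] (h2 : (2 : K) ≠ 0) (hm : 5 ≤ m)
    (hd : finrank K V ≤ m) {o a : Fin m} (hoa : o ≠ a) : Φ (D.ρ o a) = 1 := by
  classical
  by_contra hne
  obtain ⟨w, hw⟩ : ∃ w, Φ (D.ρ o a) w ≠ w := by
    by_contra hcon
    push Not at hcon
    exact hne (LinearMap.ext hcon)
  have hsqv : ∀ (j : Fin m) (h : o ≠ j) (v : V), Φ (D.ρ o j) (Φ (D.ρ o j) v) = v := by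
    intro j h v
    have := congrArg (fun x : End K V => x v) (D.ρ_sq Φ htr hm h)
    simpa using this
  let f : Fin m → End K V := fun j => if j = o then 1 else Φ (D.ρ o j)
  have hfo : f o = 1 := if_pos rfl
  have hf : ∀ {j : Fin m}, j ≠ o → f j = Φ (D.ρ o j) := fun h => if_neg h
  have hfc : ∀ i j, f i * f j = f j * f i := by
    intro i j
    by_cases hi : i = o
    · subst hi; rw [hfo, one_mul, mul_one]
    · by_cases hj : j = o
      · subst hj; rw [hfo, one_mul, mul_one]
      · rw [hf hi, hf hj]; exact D.ρ_comm Φ htr (Ne.symm hi) (Ne.symm hj)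
  have hfs : ∀ i, f i * f i = 1 := by
    intro i
    by_cases hi : i = o
    · subst hi; rw [hfo, one_mul]
    · rw [hf hi]; exact D.ρ_sq Φ htr hm (Ne.symm hi)
  obtain ⟨v, hv0, hva, hvs⟩ := joint f hfs hfc (Φ (D.ρ o a))
    (fun i => by rw [← hf hoa.symm]; exact hfc _ _) (w - Φ (D.ρ o a) w)
    (sub_ne_zero.2 (Ne.symm hw)) (by rw [map_sub, hsqv a hoa]; abel) Finset.univ
  let c : Fin m → K := fun j => if f j v = v then 1 else -1
  have hc : ∀ j, f j v = c j • v := by
    intro j
    by_cases h : f j v = v
    · simp only [c, if_pos h, one_smul, h]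
    · simp only [c, if_neg h, neg_smul, one_smul]
      exact (hvs j (Finset.mem_univ j)).resolve_left h
  have hcn : ∀ j, c j ≠ - c j := by
    intro j h
    by_cases h' : f j v = v
    · simp only [c, if_pos h'] at h
      apply h2
      linear_combination h
    · simp only [c, if_neg h'] at h
      apply h2
      linear_combination -h
  have hca : Φ (D.ρ o a) v = -v := hva
  -- the flips
  have key : ∀ T : Finset (Fin m), (∀ t ∈ T, t ≠ o ∧ t ≠ a) →
      ∃ u : V, u ≠ 0 ∧ ∀ j, f j u = (if j ∈ T then - c j else c j) • u := by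
    intro T
    induction T using Finset.induction_on with
    | empty => intro _; exact ⟨v, hv0, fun j => by simpa using hc j⟩
    | insert t T ht ih =>
      intro hT
      obtain ⟨u, hu0, hu⟩ := ih fun x hx => hT x (Finset.mem_insert_of_mem hx)
      obtain ⟨hto, hta⟩ := hT t (Finset.mem_insert_self _ _)
      have haT : a ∉ T := fun h => (hT a (Finset.mem_insert_of_mem h)).2 rfl
      refine ⟨Φ (D.ρ t a) u, fun h => hu0 (inj Φ _ h), fun j => ?_⟩
      have hcav : c a = -1 := by
        have h5 : f a v = -v := by rw [hf hoa.symm]; exact hca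
        simp only [c]
        rw [if_neg]
        rw [h5]
        intro h6
        apply hv0
        have h7 : (2 : K) • v = 0 := by
          rw [two_smul]
          nth_rewrite 1 [← h6]
          rw [neg_add_cancel]
        exact (smul_eq_zero.1 h7).resolve_left h2
      have hua : Φ (D.ρ o a) u = - u := by
        have := hu a
        rw [hf hoa.symm, if_neg haT, hcav, neg_smul, one_smul] at this
        exact this
      by_cases hjo : j = o
      · subst hjo
        have h5 : j ∉ insert t T := by
          intro h6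
          exact (hT j h6).1 rfl
        rw [if_neg h5]
        have h6 := hu j
        have h7 : j ∉ T := fun h => h5 (Finset.mem_insert_of_mem h)
        rw [if_neg h7, hfo] at h6
        rw [hfo]
        have h8 : (1 : End K V) u = u := rfl
        rw [h8] at h6
        have h9 := congrArg (Φ (D.ρ t a)) h6
        rw [map_smul] at h9
        exact h9
      · by_cases hjt : j = t
        · subst hjt
          rw [if_pos (Finset.mem_insert_self _ _), hf hjo]
          have hb := D.braid o j a (Ne.symm hjo) hta hoa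
          have h6 : Φ (D.ρ o j) (Φ (D.ρ j a) (Φ (D.ρ o a) u)) =
              Φ (D.ρ j a) (Φ (D.ρ o j) u) := by
            rw [← mulv, ← mulv, ← mulv, hb, mul_assoc]
          have h7 := hu j
          rw [if_neg ht, hf hjo] at h7
          rw [hua, map_neg, map_neg, h7, map_smul] at h6
          rw [neg_smul, ← h6, neg_neg]
        · have h8 : (j ∈ insert t T) ↔ j ∈ T := by simp [hjt]
          simp only [h8]
          have h9 : Φ (D.ρ o j) (Φ (D.ρ t a) u) = Φ (D.ρ t a) (Φ (D.ρ o j) u) := by
            rw [← mulv, ← mulv]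
            congr 2
            by_cases hja : j = a
            · subst hja
              exact D.ρ_snd o j t hoa hta
            · exact D.ρ_ne o j t a (Ne.symm hjo) hta (Ne.symm hto) hoa hjt
          rw [hf hjo, h9]
          have h7 := hu j
          rw [hf hjo] at h7
          rw [h7, map_smul]
  -- count
  let α := {j : Fin m // j ≠ o ∧ j ≠ a}
  have hex : ∀ T : Finset α, ∃ u : V, u ≠ 0 ∧ ∀ j, f j u =
      (if j ∈ T.map (Function.Embedding.subtype _) then - c j else c j) • u := by
    intro T
    apply key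
    intro t ht
    obtain ⟨x, _, rfl⟩ := Finset.mem_map.1 ht
    exact x.2
  choose u hu0 hu using hex
  have hli := indep f hfc (fun (T : Finset α) j =>
      (if j ∈ T.map (Function.Embedding.subtype _) then - c j else c j)) ?_ u hu0 hu
  · have h5 := hli.fintype_card_le_finrank
    rw [Fintype.card_finset] at h5
    have h6 : Fintype.card α = m - 2 := by
      have h7 : Fintype.card α = ((Finset.univ.erase o).erase a).card := by
        rw [Fintype.card_subtype]
        congr 1
        ext x
        simp [and_comm]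
      rw [h7, Finset.card_erase_of_mem (by simp [hoa.symm]),
        Finset.card_erase_of_mem (Finset.mem_univ _), Finset.card_univ, Fintype.card_fin]
      omega
    rw [h6] at h5
    have h8 : m < 2 ^ (m - 2) := by
      obtain ⟨k, rfl⟩ := Nat.exists_eq_add_of_le hm
      have e : 5 + k - 2 = k + 3 := by omega
      rw [e]
      clear * -
      induction k with
      | zero => norm_num
      | succ k ih =>
        have e2 : 2 ^ (k + 1 + 3) = 2 * 2 ^ (k + 3) := by ring
        omega
    omega
  · intro T T' hTT
    ext x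
    have h5 := congrFun hTT x.1
    simp only [Finset.mem_map, Function.Embedding.coe_subtype, Subtype.exists,
      exists_and_right, exists_eq_right] at h5
    by_cases hx : x ∈ T <;> by_cases hx' : x ∈ T'
    · simp [hx, hx']
    · exfalso
      rw [if_pos ⟨x.2, hx⟩, if_neg (fun h => hx' h.2)] at h5
      exact hcn _ h5.symm
    · exfalso
      rw [if_neg (fun h => hx h.2), if_pos ⟨x.2, hx'⟩] at h5
      exact hcn _ h5
    · simp [hx, hx']

end triv

end Sys

end Pool.Agent.Helper460_PR
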