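import Pool.Agent.Helper460_PR.Lin

/-!
# Representations of small degree: the sign changes act nontrivially
-/

set_option autoImplicit false
set_option linter.unusedSectionVars false

namespace Pool.Agent.Helper460_PR

open Module

namespace Sys

variable {m : ℕ} {G : Type} [Group G] (D : Sys m G)
variable {K V : Type} [Field K] [AddCommGroup V] [Module K V] (Φ : G →* End K V)

/-- A joint eigenvector of the sign changes. -/
def Jt (v : V) (c : Fin m → K) : Prop :=
  v ≠ 0 ∧ (∀ i, c i = 1 ∨ c i = -1) ∧ ∀ i j, Φ (D.e i j) v = (c i * c j) • v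

/-- The sign function of a coordinate. -/
def dl (K : Type) [Field K] (k : Fin m) : Fin m → K := fun i => if i = k then -1 else 1

variable {D Φ}

lemma Jt.swap {v : V} {c : Fin m → K} {a b : Fin m} (hab : a ≠ b) (h : D.Jt Φ v c) :
    D.Jt Φ (Φ (D.s a b) v) (fun i => c (Equiv.swap a b i)) := by
  refine ⟨fun h0 => h.1 (inj Φ _ h0), fun i => h.2.1 _, fun i j => ?_⟩
  rw [← mulv, ← D.s_e a b i j hab, mulv, h.2.2, map_smul]

lemma Jt.neg {v : V} {c : Fin m → K} (h : D.Jt Φ v c) : D.Jt Φ v (fun i => - c i) := by
  refine ⟨h.1, fun i => ?_, fun i j => by rw [h.2.2, neg_mul_neg]⟩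
  rcases h.2.1 i with h1 | h1
  · right; show - c i = -1; rw [h1]
  · left; show - c i = 1; rw [h1, neg_neg]

variable (D Φ)

lemma exists_jt (h2 : (2 : K) ≠ 0) {a b : Fin m} (h : Φ (D.e a b) ≠ 1) :
    ∃ (v : V) (c : Fin m → K), D.Jt Φ v c ∧ c a = 1 ∧ c b = -1 := by
  classical
  obtain ⟨w, hw⟩ : ∃ w, Φ (D.e a b) w ≠ w := by
    by_contra hcon
    push Not at hcon
    exact h (LinearMap.ext hcon)
  have hsq : ∀ (i j : Fin m) (v : V), Φ (D.e i j) (Φ (D.e i j) v) = v := by
    intro i j v
    rw [← mulv, D.e_sq, oneg]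
  obtain ⟨v, hv0, hva, hvs⟩ := joint (fun j => Φ (D.e a j))
    (fun i => by rw [← map_mul, D.e_sq, map_one])
    (fun i j => by rw [← map_mul, D.e_comm, map_mul]) (Φ (D.e a b))
    (fun i => by rw [← map_mul, D.e_comm, map_mul]) (w - Φ (D.e a b) w)
    (sub_ne_zero.2 (Ne.symm hw)) (by rw [map_sub, hsq]; abel) Finset.univ
  have hvn : v ≠ -v := by
    intro h3
    apply hv0
    have h7 : (2 : K) • v = 0 := by
      rw [two_smul]
      nth_rewrite 1 [h3]
      rw [neg_add_cancel]
    exact (smul_eq_zero.1 h7).resolve_left h2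
  let c : Fin m → K := fun j => if Φ (D.e a j) v = v then 1 else -1
  have hc : ∀ j, Φ (D.e a j) v = c j • v := by
    intro j
    by_cases h : Φ (D.e a j) v = v
    · simp only [c, if_pos h, one_smul, h]
    · simp only [c, if_neg h, neg_smul, one_smul]
      exact (hvs j (Finset.mem_univ j)).resolve_left h
  refine ⟨v, c, ⟨hv0, fun i => ?_, fun i j => ?_⟩, ?_, ?_⟩
  · by_cases h : Φ (D.e a i) v = v
    · left; simp only [c, if_pos h]
    · right; simp only [c, if_neg h]
  · rw [← D.e_mul i a j, mulv, hc j, map_smul, D.e_symm i a, hc i, smul_smul, mul_comm]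
  · simp only [c]
    rw [if_pos]
    rw [D.e_self, oneg]
  · simp only [c]
    rw [if_neg]
    rw [hva]
    exact Ne.symm hvn

/-- There are too many joint eigenvectors if two signs of each kind occur. -/
lemma count [FiniteDimensional K V] (h2 : (2 : K) ≠ 0) (hm : 5 ≤ m) (hd : finrank K V ≤ m)
    {v : V} {c : Fin m → K} (h : D.Jt Φ v c) :
    Nat.card {a // c a = 1} ≤ 1 ∨ Nat.card {b // c b = -1} ≤ 1 := by
  classical
  by_contra hcon
  push Not at hcon
  obtain ⟨hp, hq⟩ := hcon
  have h1n : (1 : K) ≠ -1 := by
    intro h3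
    apply h2
    linear_combination h3
  rw [Nat.card_eq_fintype_card] at hp hq
  have hpq : Fintype.card {a // c a = 1} + Fintype.card {b // c b = -1} = m := by
    have e1 := Fintype.card_subtype_compl (fun a : Fin m => c a = 1)
    have e2 : Fintype.card {x // ¬ c x = 1} = Fintype.card {b // c b = -1} := by
      apply Fintype.card_congr
      refine Equiv.subtypeEquivRight fun x => ?_
      constructor
      · exact fun h3 => (h.2.1 x).resolve_left h3
      · intro h3 h4
        rw [h3] at h4
        exact h1n h4.symm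
    rw [e2, Fintype.card_fin] at e1
    have e3 := Fintype.card_subtype_le (fun a : Fin m => c a = 1)
    rw [Fintype.card_fin] at e3
    omega
  let o : Fin m := ⟨0, by omega⟩
  let σ := Option ({a // c a = 1} × {b // c b = -1})
  let C : σ → Fin m → K := fun t => match t with
    | none => c
    | some (a, b) => fun i => c (Equiv.swap a.1 b.1 i)
  let w : σ → V := fun t => match t with
    | none => v
    | some (a, b) => Φ (D.s a.1 b.1) v
  let su : σ → Finset (Fin m) := fun t => match t with
    | none => ∅
    | some (a, b) => {a.1, b.1}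
  have hab : ∀ (a : {a // c a = 1}) (b : {b // c b = -1}), a.1 ≠ b.1 := by
    intro a b h3
    have h4 := a.2
    rw [h3, b.2] at h4
    exact h1n h4.symm
  have hw : ∀ t, D.Jt Φ (w t) (C t) := by
    rintro (_ | ⟨a, b⟩)
    · exact h
    · exact h.swap (hab a b)
  have hsu : ∀ t j, j ∉ su t → C t j = c j := by
    rintro (_ | ⟨a, b⟩) j hj
    · rfl
    · simp only [su, Finset.mem_insert, Finset.mem_singleton, not_or] at hj
      show c (Equiv.swap a.1 b.1 j) = c j
      rw [Equiv.swap_apply_of_ne_of_ne hj.1 hj.2]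
  have hcard : ∀ t, (su t).card ≤ 2 := by
    rintro (_ | ⟨a, b⟩)
    · simp [su]
    · exact Finset.card_le_two
  have hli := indep (fun j => Φ (D.e o j))
    (fun i j => by rw [← map_mul, D.e_comm, map_mul])
    (fun (t : σ) j => C t o * C t j) ?_ w (fun t => (hw t).1)
    (fun t j => (hw t).2.2 o j)
  · have h5 := hli.fintype_card_le_finrank
    have h6 : Fintype.card σ = Fintype.card {a // c a = 1} * Fintype.card {b // c b = -1} + 1 := by
      rw [← Fintype.card_prod]
      exact Fintype.card_option
    rw [h6] at h5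
    have h7 := h5.trans hd
    obtain ⟨p, hp'⟩ := Nat.exists_eq_add_of_le hp
    obtain ⟨q, hq'⟩ := Nat.exists_eq_add_of_le hq
    rw [hp', hq'] at h7 hpq
    nlinarith [Nat.zero_le (p * q)]
  · intro t t' htt
    have key : ∀ j, C t o * C t j = C t' o * C t' j := fun j => congrFun htt j
    obtain ⟨j, hj⟩ : ∃ j, j ∉ su t ∪ su t' := by
      by_contra hcon
      push Not at hcon
      have h5 := Finset.card_le_card (fun x _ => hcon x : (Finset.univ : Finset (Fin m)) ⊆ _)
      rw [Finset.card_univ, Fintype.card_fin] at h5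
      have h6 := Finset.card_union_le (su t) (su t')
      have := hcard t
      have := hcard t'
      omega
    rw [Finset.mem_union, not_or] at hj
    have hnz : ∀ x, c x ≠ 0 := by
      intro x h5
      rcases h.2.1 x with h6 | h6
      · rw [h6] at h5; exact one_ne_zero h5
      · rw [h6] at h5; exact (neg_ne_zero.2 one_ne_zero) h5
    have h5 : C t o = C t' o := by
      have h6 := key j
      rw [hsu t j hj.1, hsu t' j hj.2] at h6
      exact mul_right_cancel₀ (hnz j) h6
    have hnz' : C t o ≠ 0 := by
      intro h6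
      rcases (hw t).2.1 o with h7 | h7
      · rw [h7] at h6; exact one_ne_zero h6
      · rw [h7] at h6; exact (neg_ne_zero.2 one_ne_zero) h6
    have h6 : ∀ j, C t j = C t' j := by
      intro j
      have h7 := key j
      rw [← h5] at h7
      exact mul_left_cancel₀ hnz' h7
    have hL : ∀ (a : {a // c a = 1}) (b : {b // c b = -1}), C (some (a, b)) a.1 = -1 := by
      intro a b
      show c (Equiv.swap a.1 b.1 a.1) = -1
      rw [Equiv.swap_apply_left, b.2]
    have hR : ∀ (a : {a // c a = 1}) (b : {b // c b = -1}), C (some (a, b)) b.1 = 1 := by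
      intro a b
      show c (Equiv.swap a.1 b.1 b.1) = 1
      rw [Equiv.swap_apply_right, a.2]
    rcases t with _ | ⟨a, b⟩ <;> rcases t' with _ | ⟨a', b'⟩
    · rfl
    · exfalso
      have h7 := h6 a'.1
      rw [hL] at h7
      exact h1n (a'.2.symm.trans h7)
    · exfalso
      have h7 := h6 a.1
      rw [hL] at h7
      exact h1n ((h7.trans a.2).symm)
    · have h8 : a.1 = a'.1 := by
        by_contra hne
        have h7 := h6 a.1
        rw [hL, hsu (some (a', b')) a.1 (by simp [su, hne, hab a b']), a.2] at h7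
        exact h1n h7.symm
      have h9 : b.1 = b'.1 := by
        by_contra hne
        have h7 := h6 b.1
        rw [hR, hsu (some (a', b')) b.1 (by simp [su, hne, (hab a' b).symm]), b.2] at h7
        exact h1n h7
      rw [Subtype.ext h8, Subtype.ext h9]

/-- All coordinate signs occur. -/
lemma all_dl [FiniteDimensional K V] (h2 : (2 : K) ≠ 0) (hm : 5 ≤ m) (hd : finrank K V ≤ m)
    {a b : Fin m} (h : Φ (D.e a b) ≠ 1) : ∀ k, ∃ w : V, D.Jt Φ w (dl K k) := by
  classical
  obtain ⟨v, c, hv, ha, hb⟩ := D.exists_jt Φ h2 h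
  obtain ⟨k₀, w₀, hw₀⟩ : ∃ (k₀ : Fin m) (w₀ : V), D.Jt Φ w₀ (dl K k₀) := by
    rcases D.count Φ h2 hm hd hv with h3 | h3
    · have hs := (Nat.card_eq_fintype_card (α := {a // c a = 1})) ▸ h3
      have hsub := Fintype.card_le_one_iff_subsingleton.1 hs
      refine ⟨a, v, ?_⟩
      have e : dl K a = fun i => - c i := by
        funext i
        unfold dl
        by_cases hi : i = a
        · rw [if_pos hi, hi, ha]
        · rw [if_neg hi]
          rcases hv.2.1 i with h4 | h4
          · exact absurd (congrArg Subtype.val (hsub.elim ⟨i, h4⟩ ⟨a, ha⟩)) hi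
          · rw [h4, neg_neg]
      rw [e]
      exact hv.neg
    · have hs := (Nat.card_eq_fintype_card (α := {b // c b = -1})) ▸ h3
      have hsub := Fintype.card_le_one_iff_subsingleton.1 hs
      refine ⟨b, v, ?_⟩
      have e : dl K b = c := by
        funext i
        unfold dl
        by_cases hi : i = b
        · rw [if_pos hi, hi, hb]
        · rw [if_neg hi]
          rcases hv.2.1 i with h4 | h4
          · exact h4.symm
          · exact absurd (congrArg Subtype.val (hsub.elim ⟨i, h4⟩ ⟨b, hb⟩)) hi
      rw [e]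
      exact hv
  intro k
  by_cases hk : k = k₀
  · exact ⟨w₀, hk ▸ hw₀⟩
  · refine ⟨Φ (D.s k₀ k) w₀, ?_⟩
    have h4 := hw₀.swap (Ne.symm hk)
    have e : (fun i => dl K k₀ (Equiv.swap k₀ k i)) = dl K k := by
      funext i
      unfold dl
      by_cases hi : i = k
      · rw [if_pos hi, hi, Equiv.swap_apply_right, if_pos rfl]
      · rw [if_neg hi, if_neg]
        intro h5
        apply hi
        rw [Equiv.swap_apply_eq_iff, Equiv.swap_apply_left] at h5
        exact h5
    rw [e] at h4
    exact h4

/-- The adapted basis. -/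
lemma exists_basis [FiniteDimensional K V] (h2 : (2 : K) ≠ 0) (hm : 5 ≤ m) (hd : finrank K V ≤ m)
    {a b : Fin m} (h : Φ (D.e a b) ≠ 1) :
    finrank K V = m ∧ ∃ w : Basis (Fin m) K V,
      ∀ k i j, Φ (D.e i j) (w k) = (dl K k i * dl K k j) • w k := by
  classical
  choose u hu using D.all_dl Φ h2 hm hd h
  have h1n : (1 : K) ≠ -1 := by
    intro h3
    apply h2
    linear_combination h3
  let o : Fin m := ⟨0, by omega⟩
  have hli := indep (fun j => Φ (D.e o j))
    (fun i j => by rw [← map_mul, D.e_comm, map_mul])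
    (fun (k : Fin m) j => dl K k o * dl K k j) ?_ u (fun t => (hu t).1)
    (fun t j => (hu t).2.2 o j)
  · have h5 := hli.fintype_card_le_finrank
    rw [Fintype.card_fin] at h5
    have h6 : finrank K V = m := le_antisymm hd h5
    refine ⟨h6, ?_⟩
    have : Nonempty (Fin m) := ⟨o⟩
    have h7 : Fintype.card (Fin m) = finrank K V := by rw [Fintype.card_fin, h6]
    refine ⟨basisOfLinearIndependentOfCardEqFinrank hli h7, fun k i j => ?_⟩
    rw [coe_basisOfLinearIndependentOfCardEqFinrank]
    exact (hu k).2.2 i j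
  · intro k k' hkk
    by_contra hne
    obtain ⟨j, hj⟩ : ∃ j, j ∉ ({k, k'} : Finset (Fin m)) := by
      by_contra hcon
      push Not at hcon
      have h5 := Finset.card_le_card (fun x _ => hcon x : (Finset.univ : Finset (Fin m)) ⊆ _)
      rw [Finset.card_univ, Fintype.card_fin] at h5
      have := Finset.card_le_two (a := k) (b := k')
      omega
    simp only [Finset.mem_insert, Finset.mem_singleton, not_or] at hj
    have h5 := congrFun hkk j
    have h6 := congrFun hkk k
    simp only [dl, if_neg hj.1, if_neg hj.2, mul_one, if_pos, if_neg hne] at h5 h6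
    rw [h5] at h6
    by_cases ho : o = k'
    · rw [if_pos ho] at h6
      apply h1n
      linear_combination h6
    · rw [if_neg ho] at h6
      apply h1n
      linear_combination -h6

end Sys

end Pool.Agent.Helper460_PR
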