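import Pool.Agent.Helper460_PR.Lin2

/-!
# Representations of small degree: conclusion
-/

set_option autoImplicit false
set_option linter.unusedSectionVars false

namespace Pool.Agent.Helper460_PR

open Module

/-- An index outside a small set. -/
lemma exists_out {m : ℕ} (s : Finset (Fin m)) (h : s.card < m) : ∃ j, j ∉ s := by
  by_contra hcon
  push Not at hcon
  have h5 := Finset.card_le_card (fun x _ => hcon x : (Finset.univ : Finset (Fin m)) ⊆ _)
  rw [Finset.card_univ, Fintype.card_fin] at h5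
  omega

/-- The equations between the entries. -/
lemma alg {m : ℕ} (hm : 5 ≤ m) {K : Type} [Field K] (A X Y D : Fin m → Fin m → K)
    (e1 : ∀ i j k, i ≠ j → j ≠ k → i ≠ k → A i j = A i k * A i j + X i k * Y j k * Y i j)
    (e3 : ∀ i j k, i ≠ j → j ≠ k → i ≠ k → X i j * X j k = X i k * D j k)
    (e6 : ∀ i j k, i ≠ j → j ≠ k → i ≠ k → 0 = Y i k * A i j + D i k * Y j k * Y i j)
    (e7 : ∀ i j k, i ≠ j → j ≠ k → i ≠ k → Y j k = Y i k * X i j + D i k * Y j k * D i j)
    (e8 : ∀ i j k, i ≠ j → j ≠ k → i ≠ k → D j k = D i k * D j k)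
    (hdet : ∀ i j, i ≠ j → A i j * D i j - X i j * Y i j ≠ 0) :
    (∀ i j, i ≠ j → D i j = 1) ∧ (∀ i j, i ≠ j → A i j = 1) ∧
    (((∀ i j, i ≠ j → Y i j = 0) ∧ (∀ i j, i ≠ j → X i j ≠ 0) ∧
        ∀ i j k, i ≠ j → j ≠ k → i ≠ k → X i j * X j k = X i k) ∨
      ((∀ i j, i ≠ j → X i j = 0) ∧
        ∀ i j k, i ≠ j → j ≠ k → i ≠ k → Y i k = - (Y j k * Y i j))) := by
  have out2 : ∀ i j : Fin m, ∃ k, k ≠ i ∧ k ≠ j := by
    intro i j
    obtain ⟨k, hk⟩ := exists_out ({i, j} : Finset (Fin m))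
      (lt_of_le_of_lt Finset.card_le_two (by omega))
    simp only [Finset.mem_insert, Finset.mem_singleton, not_or] at hk
    exact ⟨k, hk.1, hk.2⟩
  have hD : ∀ j k, j ≠ k → D j k = 1 := by
    intro j k hjk
    by_contra hne
    obtain ⟨i, hij, hik⟩ := out2 j k
    have h1 : D i k = 0 := by
      have h := e8 j i k hij.symm hik hjk
      have h' : (1 - D j k) * D i k = 0 := by linear_combination h
      rcases mul_eq_zero.1 h' with h3 | h3
      · exact absurd (sub_eq_zero.1 h3).symm hne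
      · exact h3
    have h2 : D j k = 0 := by
      have h := e8 i j k hij hjk hik
      rw [h1, zero_mul] at h
      exact h
    have h3 := e3 i j k hij hjk hik
    rw [h2, mul_zero] at h3
    have h4 := hdet j k hjk
    rw [h2, mul_zero, zero_sub, neg_ne_zero] at h4
    have h5 : X j k ≠ 0 := left_ne_zero_of_mul h4
    have h6 : X i j = 0 := (mul_eq_zero.1 h3).resolve_right h5
    have h7 := e7 i j k hij hjk hik
    rw [h6, h1, mul_zero, zero_mul, zero_mul, add_zero] at h7
    exact (right_ne_zero_of_mul h4) h7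
  have hYX : ∀ i j k, i ≠ j → j ≠ k → i ≠ k → Y i k * X i j = 0 := by
    intro i j k hij hjk hik
    have h := e7 i j k hij hjk hik
    rw [hD i k hik, hD i j hij, one_mul, mul_one] at h
    linear_combination -h
  have hXX : ∀ i j k, i ≠ j → j ≠ k → i ≠ k → X i j * X j k = X i k := by
    intro i j k hij hjk hik
    rw [e3 i j k hij hjk hik, hD j k hjk, mul_one]
  refine ⟨hD, ?_⟩
  by_cases hX : ∃ i₀ k₀, i₀ ≠ k₀ ∧ X i₀ k₀ ≠ 0
  · obtain ⟨i₀, k₀, h0, hx0⟩ := hX
    have r1 : ∀ j, i₀ ≠ j → X i₀ j ≠ 0 := by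
      intro j hj
      by_cases hjk : j = k₀
      · rw [hjk]; exact hx0
      · intro h
        apply hx0
        rw [← hXX i₀ j k₀ hj hjk h0, h, zero_mul]
    have r2 : ∀ j l, j ≠ l → l ≠ i₀ → X j l ≠ 0 := by
      intro j l hjl hl
      by_cases hj : j = i₀
      · rw [hj]; exact r1 l hl.symm
      · intro h
        apply r1 l hl.symm
        rw [← hXX i₀ j l (Ne.symm hj) hjl hl.symm, h, mul_zero]
    have r3 : ∀ j l, j ≠ l → X j l ≠ 0 := by
      intro j l hjl
      by_cases hl : l = i₀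
      · obtain ⟨t, ht1, ht2⟩ := out2 j i₀
        intro h
        apply r2 j t (Ne.symm ht1) ht2
        rw [← hXX j i₀ t (hl ▸ hjl) (Ne.symm ht2) (Ne.symm ht1), ← hl, h, zero_mul]
      · exact r2 j l hjl hl
    have hY : ∀ i k, i ≠ k → Y i k = 0 := by
      intro i k hik
      obtain ⟨j, hj1, hj2⟩ := out2 i k
      exact (mul_eq_zero.1 (hYX i j k (Ne.symm hj1) hj2 hik)).resolve_right (r3 i j (Ne.symm hj1))
    refine ⟨fun i k hik => ?_, Or.inl ⟨hY, r3, hXX⟩⟩
    obtain ⟨j, hj1, hj2⟩ := out2 i k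
    have h := e1 i j k (Ne.symm hj1) hj2 hik
    have h4 := hdet i j (Ne.symm hj1)
    rw [hD i j (Ne.symm hj1), hY i j (Ne.symm hj1), mul_one, mul_zero, sub_zero] at h4
    rw [hY i j (Ne.symm hj1), mul_zero, add_zero] at h
    have h5 : (A i k - 1) * A i j = 0 := by linear_combination -h
    rcases mul_eq_zero.1 h5 with h6 | h6
    · exact sub_eq_zero.1 h6
    · exact absurd h6 h4
  · push Not at hX
    have hA : ∀ i k, i ≠ k → A i k = 1 := by
      intro i k hik
      obtain ⟨j, hj1, hj2⟩ := out2 i k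
      have h := e1 i j k (Ne.symm hj1) hj2 hik
      have h4 := hdet i j (Ne.symm hj1)
      rw [hD i j (Ne.symm hj1), hX i j (Ne.symm hj1), mul_one, zero_mul, sub_zero] at h4
      rw [hX i k hik, zero_mul, zero_mul, add_zero] at h
      have h5 : (A i k - 1) * A i j = 0 := by linear_combination -h
      rcases mul_eq_zero.1 h5 with h6 | h6
      · exact sub_eq_zero.1 h6
      · exact absurd h6 h4
    refine ⟨hA, Or.inr ⟨hX, fun i j k hij hjk hik => ?_⟩⟩
    have h := e6 i j k hij hjk hik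
    rw [hA i j hij, hD i k hik, mul_one, one_mul] at h
    linear_combination -h

namespace Sys

variable {m : ℕ} {G : Type} [Group G] (D : Sys m G)
variable {K V : Type} [Field K] [AddCommGroup V] [Module K V] (Φ : G →* End K V)

section basis

variable (w : Basis (Fin m) K V)
  (hw : ∀ k i j, Φ (D.e i j) (w k) = (dl K k i * dl K k j) • w k)
include hw

lemma repr_e (k i j : Fin m) (y : V) :
    w.repr (Φ (D.e i j) y) k = (dl K k i * dl K k j) * w.repr y k := by
  have h : (w.coord k).comp (Φ (D.e i j)) = (dl K k i * dl K k j) • w.coord k := by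
    apply w.ext
    intro l
    rw [LinearMap.comp_apply, hw, map_smul, LinearMap.smul_apply, Basis.coord_apply,
      Basis.repr_self]
    by_cases hkl : l = k
    · subst hkl; rfl
    · rw [Finsupp.single_eq_of_ne (Ne.symm hkl), smul_zero, smul_zero]
  exact congrArg (fun x : V →ₗ[K] K => x y) h

lemma coord0 {x : G} {k l i j : Fin m} (hc : x * D.e i j = D.e i j * x)
    (hne : dl K k i * dl K k j ≠ dl K l i * dl K l j) : w.repr (Φ x (w l)) k = 0 := by
  have h1 := D.repr_e Φ w hw k i j (Φ x (w l))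
  rw [← mulv, ← hc, mulv, hw, map_smul, map_smul, Finsupp.smul_apply, smul_eq_mul] at h1
  have h2 : (dl K k i * dl K k j - dl K l i * dl K l j) * w.repr (Φ x (w l)) k = 0 := by
    linear_combination -h1
  exact (mul_eq_zero.1 h2).resolve_left (sub_ne_zero.2 hne)

lemma coordρ (h2 : (2 : K) ≠ 0) (hm : 5 ≤ m) {a b k l : Fin m} (hab : a ≠ b) (hkl : k ≠ l)
    (h1 : ¬ (k = a ∧ l = b)) (h3 : ¬ (k = b ∧ l = a)) : w.repr (Φ (D.ρ a b) (w l)) k = 0 := by
  have h1n : (-1 : K) ≠ 1 := by
    intro h3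
    apply h2
    linear_combination -h3
  obtain ⟨j, hj⟩ := exists_out ({a, b, k, l} : Finset (Fin m))
    (lt_of_le_of_lt Finset.card_le_four (by omega))
  simp only [Finset.mem_insert, Finset.mem_singleton, not_or] at hj
  obtain ⟨hja, hjb, hjk, hjl⟩ := hj
  by_cases hk : k ≠ a ∧ k ≠ b
  · apply D.coord0 Φ w hw (D.ρ_e a b k j hab hk.1 hk.2 hja hjb)
    simp only [dl, if_pos, if_neg hjk, if_neg hkl, if_neg hjl, mul_one]
    exact h1n
  · have hl : l ≠ a ∧ l ≠ b := by
      constructor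
      · rintro rfl
        apply hk
        exact ⟨hkl, fun h => h3 ⟨h, rfl⟩⟩
      · rintro rfl
        apply hk
        exact ⟨fun h => h1 ⟨h, rfl⟩, hkl⟩
    apply D.coord0 Φ w hw (D.ρ_e a b l j hab hl.1 hl.2 hja hjb)
    simp only [dl, if_pos, if_neg hjk, if_neg (Ne.symm hkl), if_neg hjl, mul_one]
    exact Ne.symm h1n

end basis

end Sys

end Pool.Agent.Helper460_PR
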