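import Pool.Agent.Helper460_PR.Lin3

/-!
# Representations of small degree: the main statement
-/

set_option autoImplicit false
set_option linter.unusedSectionVars false

namespace Pool.Agent.Helper460_PR

open Module

/-- A multiplicative cocycle is zero or a coboundary. -/
lemma cocycle {m : ℕ} (hm : 5 ≤ m) {K : Type} [Field K] (Z : Fin m → Fin m → K)
    (hc : ∀ i j k, i ≠ j → j ≠ k → i ≠ k → Z i j * Z j k = Z i k) :
    (∀ i j, i ≠ j → Z i j = 0) ∨
      ∃ s : Fin m → K, (∀ i, s i ≠ 0) ∧ ∀ i j, i ≠ j → s i * Z i j = s j := by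
  classical
  have out2 : ∀ i j : Fin m, ∃ k, k ≠ i ∧ k ≠ j := by
    intro i j
    obtain ⟨k, hk⟩ := exists_out ({i, j} : Finset (Fin m))
      (lt_of_le_of_lt Finset.card_le_two (by omega))
    simp only [Finset.mem_insert, Finset.mem_singleton, not_or] at hk
    exact ⟨k, hk.1, hk.2⟩
  by_cases hX : ∃ i₀ k₀, i₀ ≠ k₀ ∧ Z i₀ k₀ ≠ 0
  · right
    obtain ⟨i₀, k₀, h0, hx0⟩ := hX
    have r1 : ∀ j, i₀ ≠ j → Z i₀ j ≠ 0 := by
      intro j hj
      by_cases hjk : j = k₀
      · rw [hjk]; exact hx0
      · intro h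
        apply hx0
        rw [← hc i₀ j k₀ hj hjk h0, h, zero_mul]
    have r2 : ∀ j l, j ≠ l → l ≠ i₀ → Z j l ≠ 0 := by
      intro j l hjl hl
      by_cases hj : j = i₀
      · rw [hj]; exact r1 l hl.symm
      · intro h
        apply r1 l hl.symm
        rw [← hc i₀ j l (Ne.symm hj) hjl hl.symm, h, mul_zero]
    refine ⟨fun i => if i = i₀ then 1 else Z i₀ i, fun i => ?_, fun i j hij => ?_⟩
    · by_cases hi : i = i₀
      · simp only [if_pos hi]; exact one_ne_zero
      · simp only [if_neg hi]; exact r1 i (Ne.symm hi)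
    · by_cases hi : i = i₀
      · subst hi
        simp only [if_pos, if_neg (Ne.symm hij), one_mul]
      · by_cases hj : j = i₀
        · subst hj
          simp only [if_neg hi, if_pos]
          obtain ⟨k, hk1, hk2⟩ := out2 i j
          have e1 := hc j i k (Ne.symm hij) (Ne.symm hk1) (Ne.symm hk2)
          have e2 := hc i j k hij (Ne.symm hk2) (Ne.symm hk1)
          have h3 := r1 k (Ne.symm hk2)
          have h4 : (Z j i * Z i j - 1) * Z j k = 0 := by
            rw [← e2] at e1
            linear_combination e1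
          exact sub_eq_zero.1 ((mul_eq_zero.1 h4).resolve_right h3)
        · simp only [if_neg hi, if_neg hj]
          exact hc i₀ i j (Ne.symm hi) hij (Ne.symm hj)
  · left
    push Not at hX
    exact hX

namespace Sys

variable {m : ℕ} {G : Type} [Group G] (D : Sys m G)
variable {K V : Type} [Field K] [AddCommGroup V] [Module K V] (Φ : G →* End K V)

lemma three {w : Basis (Fin m) K V} {i j k : Fin m} (hij : i ≠ j) (hjk : j ≠ k) (hik : i ≠ k)
    {p q r p' q' r' : K}
    (h : p • w i + q • w j + r • w k = p' • w i + q' • w j + r' • w k) :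
    p = p' ∧ q = q' ∧ r = r' := by
  refine ⟨?_, ?_, ?_⟩
  · have := congrArg (fun y => w.repr y i) h
    simpa [Finsupp.single_apply, hij, hik, hjk, hij.symm, hik.symm, hjk.symm] using this
  · have := congrArg (fun y => w.repr y j) h
    simpa [Finsupp.single_apply, hij, hik, hjk, hij.symm, hik.symm, hjk.symm] using this
  · have := congrArg (fun y => w.repr y k) h
    simpa [Finsupp.single_apply, hij, hik, hjk, hij.symm, hik.symm, hjk.symm] using this

section basis

variable (w : Basis (Fin m) K V)
  (hw : ∀ k i j, Φ (D.e i j) (w k) = (dl K k i * dl K k j) • w k)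
include hw

lemma act_fst (h2 : (2 : K) ≠ 0) (hm : 5 ≤ m) {i j : Fin m} (hij : i ≠ j) :
    Φ (D.ρ i j) (w i) = w.repr (Φ (D.ρ i j) (w i)) i • w i +
      w.repr (Φ (D.ρ i j) (w i)) j • w j := by
  apply w.ext_elem
  intro k
  rw [map_add, map_smul, map_smul, Basis.repr_self, Basis.repr_self]
  by_cases hki : k = i
  · subst hki
    simp [Finsupp.single_apply, hij.symm]
  · by_cases hkj : k = j
    · subst hkj
      simp [Finsupp.single_apply, hij]
    · rw [D.coordρ Φ w hw h2 hm hij hki (fun h => hki h.1) (fun h => hkj h.1)]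
      simp [Finsupp.single_apply, Ne.symm hki, Ne.symm hkj]

lemma act_snd (h2 : (2 : K) ≠ 0) (hm : 5 ≤ m) {i j : Fin m} (hij : i ≠ j) :
    Φ (D.ρ i j) (w j) = w.repr (Φ (D.ρ i j) (w j)) i • w i +
      w.repr (Φ (D.ρ i j) (w j)) j • w j := by
  apply w.ext_elem
  intro k
  rw [map_add, map_smul, map_smul, Basis.repr_self, Basis.repr_self]
  by_cases hki : k = i
  · subst hki
    simp [Finsupp.single_apply, hij.symm]
  · by_cases hkj : k = j
    · subst hkj
      simp [Finsupp.single_apply, hij]
    · rw [D.coordρ Φ w hw h2 hm hij hkj (fun h => hki h.1) (fun h => hkj h.1)]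
      simp [Finsupp.single_apply, Ne.symm hki, Ne.symm hkj]

lemma act_ne (h2 : (2 : K) ≠ 0) (hm : 5 ≤ m) {i j l : Fin m} (hij : i ≠ j) (hli : l ≠ i)
    (hlj : l ≠ j) : Φ (D.ρ i j) (w l) = w.repr (Φ (D.ρ i j) (w l)) l • w l := by
  apply w.ext_elem
  intro k
  rw [map_smul, Basis.repr_self]
  by_cases hkl : k = l
  · subst hkl
    simp
  · rw [D.coordρ Φ w hw h2 hm hij hkl (fun h => hlj h.2) (fun h => hli h.2)]
    simp [Finsupp.single_apply, Ne.symm hkl]

lemma act_one (h2 : (2 : K) ≠ 0) (hm : 5 ≤ m) {i k l : Fin m} (hik : i ≠ k) (hli : l ≠ i)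
    (hlk : l ≠ k) : Φ (D.ρ i k) (w l) = w l := by
  obtain ⟨j, hj⟩ := exists_out ({i, k, l} : Finset (Fin m))
    (lt_of_le_of_lt Finset.card_le_three (by omega))
  simp only [Finset.mem_insert, Finset.mem_singleton, not_or] at hj
  obtain ⟨hji, hjk, hjl⟩ := hj
  have e := congrArg (fun x => Φ x (w l)) (D.braid i j k (Ne.symm hji) hjk hik)
  simp only [mulv] at e
  have a1 := D.act_ne Φ w hw h2 hm (Ne.symm hji) hli (Ne.symm hjl)
  have a2 := D.act_ne Φ w hw h2 hm hjk (Ne.symm hjl) hlk
  have a3 := D.act_ne Φ w hw h2 hm hik hli hlk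
  have n1 : w.repr (Φ (D.ρ i j) (w l)) l ≠ 0 := by
    intro h
    rw [h, zero_smul] at a1
    exact w.ne_zero l (inj Φ _ a1)
  have n2 : w.repr (Φ (D.ρ j k) (w l)) l ≠ 0 := by
    intro h
    rw [h, zero_smul] at a2
    exact w.ne_zero l (inj Φ _ a2)
  rw [a1, a3, map_smul, map_smul, map_smul, a2, map_smul, a1, smul_smul, smul_smul,
    smul_smul] at e
  have e2 := congrArg (fun y => w.repr y l) e
  simp only [map_smul, Basis.repr_self, Finsupp.smul_apply, Finsupp.single_eq_same, smul_eq_mul,
    mul_one] at e2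
  have e3 : (w.repr (Φ (D.ρ i k) (w l)) l - 1) *
      (w.repr (Φ (D.ρ i j) (w l)) l * w.repr (Φ (D.ρ j k) (w l)) l) = 0 := by
    linear_combination -e2
  have e4 := sub_eq_zero.1 ((mul_eq_zero.1 e3).resolve_right (mul_ne_zero n1 n2))
  rw [a3, e4, one_smul]

/-- The structure of the action of the transvections. -/
lemma struct (h2 : (2 : K) ≠ 0) (hm : 5 ≤ m) :
    (∀ i j, i ≠ j → Φ (D.ρ i j) = 1) ∨ (∃ u : Basis (Fin m) K V,
      (∀ i j, i ≠ j → Φ (D.ρ i j) (u i) = u i + u j) ∧
      (∀ i j k, i ≠ j → k ≠ i → Φ (D.ρ i j) (u k) = u k)) ∨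
    (∃ u : Basis (Fin m) K V,
      (∀ i j, i ≠ j → Φ (D.ρ i j) (u j) = u j - u i) ∧
      (∀ i j k, i ≠ j → k ≠ j → Φ (D.ρ i j) (u k) = u k)) := by
  have aI := fun (i j : Fin m) (h : i ≠ j) => D.act_fst Φ w hw h2 hm h
  have aJ := fun (i j : Fin m) (h : i ≠ j) => D.act_snd Φ w hw h2 hm h
  have aK := fun (i j k : Fin m) (h : i ≠ j) (hi : k ≠ i) (hj : k ≠ j) =>
    D.act_one Φ w hw h2 hm h hi hj
  generalize hA : (fun i j => w.repr (Φ (D.ρ i j) (w i)) i) = A
  generalize hX : (fun i j => w.repr (Φ (D.ρ i j) (w i)) j) = X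
  generalize hY : (fun i j => w.repr (Φ (D.ρ i j) (w j)) i) = Y
  generalize hE : (fun i j => w.repr (Φ (D.ρ i j) (w j)) j) = E
  have hA' : ∀ i j, w.repr (Φ (D.ρ i j) (w i)) i = A i j := fun i j => by rw [← hA]
  have hX' : ∀ i j, w.repr (Φ (D.ρ i j) (w i)) j = X i j := fun i j => by rw [← hX]
  have hY' : ∀ i j, w.repr (Φ (D.ρ i j) (w j)) i = Y i j := fun i j => by rw [← hY]
  have hE' : ∀ i j, w.repr (Φ (D.ρ i j) (w j)) j = E i j := fun i j => by rw [← hE]
  simp only [hA', hX', hY', hE'] at aI aJ
  have rel : ∀ i j k, i ≠ j → j ≠ k → i ≠ k → ∀ y,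
      Φ (D.ρ j k) (Φ (D.ρ i j) y) = Φ (D.ρ i j) (Φ (D.ρ j k) (Φ (D.ρ i k) y)) := by
    intro i j k hij hjk hik y
    rw [← mulv, ← mulv, ← mulv, D.braid i j k hij hjk hik, mul_assoc]
  have q1 : ∀ i j k, i ≠ j → j ≠ k → i ≠ k →
      A i j = A i k * A i j + X i k * Y j k * Y i j ∧
      X i j * A j k = A i k * X i j + X i k * Y j k * E i j ∧
      X i j * X j k = X i k * E j k := by
    intro i j k hij hjk hik
    apply three (w := w) hij hjk hik
    have h := rel i j k hij hjk hik (w i)
    rw [aI i j hij, aI i k hik, map_add, map_add, map_add, map_smul, map_smul, map_smul, map_smul,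
      map_smul, map_smul, aK j k i hjk hij hik, aI j k hjk, aJ j k hjk, map_add, map_smul,
      map_smul, aI i j hij, aJ i j hij, aK i j k hij hik.symm hjk.symm] at h
    calc _ = A i j • w i + X i j • (A j k • w j + X j k • w k) := by module
      _ = _ := h
      _ = _ := by module
  have q3 : ∀ i j k, i ≠ j → j ≠ k → i ≠ k →
      0 = Y i k * A i j + E i k * Y j k * Y i j ∧
      Y j k = Y i k * X i j + E i k * Y j k * E i j ∧
      E j k = E i k * E j k := by
    intro i j k hij hjk hik
    apply three (w := w) hij hjk hik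
    have h := rel i j k hij hjk hik (w k)
    rw [aK i j k hij hik.symm hjk.symm, aJ i k hik, aJ j k hjk, map_add, map_add, map_smul,
      map_smul, map_smul, map_smul, aK j k i hjk hij hik, aJ j k hjk, map_add, map_smul, map_smul,
      aI i j hij, aJ i j hij, aK i j k hij hik.symm hjk.symm] at h
    calc _ = Y j k • w j + E j k • w k := by module
      _ = _ := h
      _ = _ := by module
  have hdet : ∀ i j, i ≠ j → A i j * E i j - X i j * Y i j ≠ 0 := by
    intro i j hij h0
    have e1 : Φ (D.ρ i j) (E i j • w i - X i j • w j) = 0 := by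
      rw [map_sub, map_smul, map_smul, aI i j hij, aJ i j hij]
      have : E i j • (A i j • w i + X i j • w j) - X i j • (Y i j • w i + E i j • w j) =
        (A i j * E i j - X i j * Y i j) • w i := by module
      rw [this, h0, zero_smul]
    have e2 : Φ (D.ρ i j) (Y i j • w i - A i j • w j) = 0 := by
      rw [map_sub, map_smul, map_smul, aI i j hij, aJ i j hij]
      have : Y i j • (A i j • w i + X i j • w j) - A i j • (Y i j • w i + E i j • w j) =
        (-(A i j * E i j - X i j * Y i j)) • w j := by module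
      rw [this, h0, neg_zero, zero_smul]
    have e3 := inj Φ _ e1
    have e4 := inj Φ _ e2
    have c1 := congrArg (fun y => w.repr y j) e3
    have c2 := congrArg (fun y => w.repr y j) e4
    simp [Finsupp.single_apply, hij] at c1 c2
    have e5 := aI i j hij
    rw [c1, c2, zero_smul, zero_smul, add_zero] at e5
    exact w.ne_zero i (inj Φ _ e5)
  obtain ⟨hE1, hA1, hcase⟩ := alg hm A X Y E (fun i j k a b c => (q1 i j k a b c).1)
    (fun i j k a b c => (q1 i j k a b c).2.2) (fun i j k a b c => (q3 i j k a b c).1)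
    (fun i j k a b c => (q3 i j k a b c).2.1) (fun i j k a b c => (q3 i j k a b c).2.2) hdet
  rcases hcase with ⟨hY0, hXn, hXX⟩ | ⟨hX0, hYY⟩
  · right; left
    rcases cocycle hm X hXX with h | ⟨s, hs, hsX⟩
    · exfalso
      have h01 : (⟨0, by omega⟩ : Fin m) ≠ ⟨1, by omega⟩ := by
        intro h; exact absurd (congrArg Fin.val h) (by norm_num)
      exact hXn _ _ h01 (h _ _ h01)
    · refine ⟨w.isUnitSMul (w := s) (fun i => (hs i).isUnit), fun i j hij => ?_,
        fun i j k hij hki => ?_⟩
      · rw [Basis.isUnitSMul_apply, Basis.isUnitSMul_apply, map_smul, aI i j hij, hA1 i j hij,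
          smul_add, one_smul, smul_smul, hsX i j hij]
      · rw [Basis.isUnitSMul_apply, map_smul]
        by_cases hkj : k = j
        · subst hkj
          rw [aJ i k hij, hY0 i k hij, hE1 i k hij, zero_smul, zero_add, one_smul]
        · rw [aK i j k hij hki hkj]
  · rcases cocycle hm (fun i j => - Y i j) (fun i j k a b c => by
        rw [hYY i j k a b c]; ring) with h | ⟨s, hs, hsY⟩
    · left
      intro i j hij
      apply w.ext
      intro k
      show Φ (D.ρ i j) (w k) = w k
      by_cases hki : k = i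
      · subst hki
        rw [aI k j hij, hA1 k j hij, hX0 k j hij, zero_smul, add_zero, one_smul]
      · by_cases hkj : k = j
        · subst hkj
          rw [aJ i k hij, neg_eq_zero.1 (h i k hij), hE1 i k hij, zero_smul, zero_add, one_smul]
        · rw [aK i j k hij hki hkj]
    · right; right
      refine ⟨w.isUnitSMul (w := fun i => (s i)⁻¹) (fun i => (inv_ne_zero (hs i)).isUnit),
        fun i j hij => ?_, fun i j k hij hkj => ?_⟩
      · rw [Basis.isUnitSMul_apply, Basis.isUnitSMul_apply, map_smul, aJ i j hij, hE1 i j hij,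
          smul_add, one_smul, smul_smul]
        have e : (s j)⁻¹ * Y i j = - (s i)⁻¹ := by
          have h5 := hsY i j hij
          have h6 := hs i
          have h7 := hs j
          field_simp
          linear_combination -h5
        rw [e, neg_smul]
        abel
      · rw [Basis.isUnitSMul_apply, map_smul]
        by_cases hki : k = i
        · subst hki
          rw [aI k j hij, hX0 k j hij, hA1 k j hij, zero_smul, add_zero, one_smul]
        · rw [aK i j k hij hki hkj]

/-- The two kinds of transvections have the same image. -/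
lemma l_eq' (h2 : (2 : K) ≠ 0) (hm : 5 ≤ m) {i j : Fin m} (hij : i ≠ j) :
    Φ (D.l i j) = Φ (D.ρ i j) := by
  have hc : Φ (D.e i j) * Φ (D.ρ i j) = Φ (D.ρ i j) * Φ (D.e i j) := by
    apply w.ext
    intro k
    show Φ (D.e i j) (Φ (D.ρ i j) (w k)) = Φ (D.ρ i j) (Φ (D.e i j) (w k))
    by_cases hki : k = i
    · subst hki
      rw [hw, map_smul, D.act_fst Φ w hw h2 hm hij, map_add, map_smul, map_smul, hw, hw]
      simp only [dl, if_pos, if_neg hij, if_neg hij.symm]
      module
    · by_cases hkj : k = j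
      · subst hkj
        rw [hw, map_smul, D.act_snd Φ w hw h2 hm hij, map_add, map_smul, map_smul, hw, hw]
        simp only [dl, if_pos, if_neg hij, if_neg hij.symm]
        module
      · rw [D.act_one Φ w hw h2 hm hij hki hkj, hw, map_smul,
          D.act_one Φ w hw h2 hm hij hki hkj]
  have h3 : Φ (D.l i j) * Φ (D.e i j) = Φ (D.e i j) * Φ (D.ρ i j) := by
    rw [← map_mul, D.l_e i j hij, map_mul]
  rw [hc] at h3
  have h4 : Φ (D.e i j) * Φ (D.e i j) = 1 := by rw [← map_mul, D.e_sq, map_one]
  calc Φ (D.l i j) = Φ (D.l i j) * Φ (D.e i j) * Φ (D.e i j) := by rw [mul_assoc, h4, mul_one]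
    _ = _ := by rw [h3, mul_assoc, h4, mul_one]

end basis

/-- **Main statement.** -/
theorem main [FiniteDimensional K V] (h2 : (2 : K) ≠ 0) (hm : 5 ≤ m) (hd : finrank K V ≤ m)
    (M : G →* Matrix (Fin m) (Fin m) K)
    (hρ : ∀ i j, i ≠ j → M (D.ρ i j) = Matrix.transvection j i 1)
    (hl : ∀ i j, i ≠ j → M (D.l i j) = Matrix.transvection j i 1) :
    (∀ g, Φ g = 1) ∨ (finrank K V = m ∧ ∀ g, Φ g = 1 → M g = 1) := by
  classical
  by_cases htr : ∀ i j, Φ (D.e i j) = 1
  · left
    have h1 : ∀ i j, i ≠ j → Φ (D.ρ i j) = 1 := fun i j hij => D.triv_case Φ htr h2 hm hd hij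
    exact D.triv_of Φ h1 (fun i j hij => by rw [D.l_eq Φ htr hij, h1 i j hij])
  · push Not at htr
    obtain ⟨a, b, hab⟩ := htr
    obtain ⟨hfr, w, hw⟩ := D.exists_basis Φ h2 hm hd hab
    have hll := fun (i j : Fin m) (hij : i ≠ j) => D.l_eq' Φ w hw h2 hm hij
    rcases D.struct Φ w hw h2 hm with h1 | ⟨u, hu1, hu2⟩ | ⟨u, hu1, hu2⟩
    · left
      exact D.triv_of Φ h1 (fun i j hij => by rw [hll i j hij, h1 i j hij])
    · right
      refine ⟨hfr, ?_⟩
      have hgen : ∀ i j, i ≠ j → Φ (D.ρ i j) = Matrix.toLinAlgEquiv u (Matrix.transvection j i 1) := by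
        intro i j hij
        apply u.ext
        intro k
        rw [Matrix.toLinAlgEquiv_self]
        simp only [Matrix.transvection, Matrix.add_apply, add_smul, Finset.sum_add_distrib,
          Matrix.one_apply, Matrix.single_apply, ite_smul, one_smul, zero_smul,
          Finset.sum_ite_eq', Finset.mem_univ, if_true]
        by_cases hk : k = i
        · subst hk
          rw [hu1 k j hij]
          simp
        · rw [hu2 i j k hij hk]
          simp [Ne.symm hk]
      have hΦ : Φ = (MonoidHomClass.toMonoidHom (Matrix.toLinAlgEquiv u)).comp M := by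
        apply MonoidHom.eq_of_eqOn_dense D.gen
        rintro _ ⟨i, j, hij, rfl | rfl⟩
        · show Φ (D.ρ i j) = Matrix.toLinAlgEquiv u (M (D.ρ i j))
          rw [hρ i j hij, hgen i j hij]
        · show Φ (D.l i j) = Matrix.toLinAlgEquiv u (M (D.l i j))
          rw [hl i j hij, hll i j hij, hgen i j hij]
      intro g hg
      rw [hΦ] at hg
      have h5 : Matrix.toLinAlgEquiv u (M g) = Matrix.toLinAlgEquiv u 1 := by
        rw [map_one]; exact hg
      exact (Matrix.toLinAlgEquiv u).injective h5
    · right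
      refine ⟨hfr, ?_⟩
      let M' : G →* Matrix (Fin m) (Fin m) K :=
        { toFun := fun g => (M g⁻¹).transpose
          map_one' := by rw [inv_one, map_one, Matrix.transpose_one]
          map_mul' := fun g h => by
            rw [mul_inv_rev, map_mul, Matrix.transpose_mul] }
      have hM' : ∀ (x : G) (i j : Fin m), i ≠ j → M x = Matrix.transvection j i 1 →
          M' x = Matrix.transvection i j (-1) := by
        intro x i j hij hx
        have e1 : M x⁻¹ = Matrix.transvection j i (-1) := by
          have h3 : M x⁻¹ * M x = 1 := by rw [← map_mul, inv_mul_cancel, map_one]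
          rw [hx] at h3
          have h4 := congrArg (fun y => y * Matrix.transvection j i (-1 : K)) h3
          simp only [mul_assoc, one_mul] at h4
          rw [Matrix.transvection_mul_transvection_same _ _ hij.symm, add_neg_cancel,
            Matrix.transvection_zero, mul_one] at h4
          exact h4
        show (M x⁻¹).transpose = _
        rw [e1]
        simp [Matrix.transvection, Matrix.transpose_add]
      have hgen : ∀ i j, i ≠ j → Φ (D.ρ i j) =
          Matrix.toLinAlgEquiv u (Matrix.transvection i j (-1)) := by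
        intro i j hij
        apply u.ext
        intro k
        rw [Matrix.toLinAlgEquiv_self]
        simp only [Matrix.transvection, Matrix.add_apply, add_smul, Finset.sum_add_distrib,
          Matrix.one_apply, Matrix.single_apply, ite_smul, one_smul, zero_smul,
          Finset.sum_ite_eq', Finset.mem_univ, if_true]
        by_cases hk : k = j
        · subst hk
          rw [hu1 i k hij]
          simp [sub_eq_add_neg]
        · rw [hu2 i j k hij hk]
          simp [Ne.symm hk]
      have hΦ : Φ = (MonoidHomClass.toMonoidHom (Matrix.toLinAlgEquiv u)).comp M' := by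
        apply MonoidHom.eq_of_eqOn_dense D.gen
        rintro _ ⟨i, j, hij, rfl | rfl⟩
        · show Φ (D.ρ i j) = Matrix.toLinAlgEquiv u (M' (D.ρ i j))
          rw [hM' _ i j hij (hρ i j hij), hgen i j hij]
        · show Φ (D.l i j) = Matrix.toLinAlgEquiv u (M' (D.l i j))
          rw [hM' _ i j hij (hl i j hij), hll i j hij, hgen i j hij]
      intro g hg
      rw [hΦ] at hg
      have h5 : Matrix.toLinAlgEquiv u (M' g) = Matrix.toLinAlgEquiv u 1 := by
        rw [map_one]; exact hg
      have h6 : (M g⁻¹).transpose = 1 := (Matrix.toLinAlgEquiv u).injective h5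
      have h7 : M g⁻¹ = 1 := by
        have := congrArg Matrix.transpose h6
        rwa [Matrix.transpose_transpose, Matrix.transpose_one] at this
      have h8 : M (g⁻¹ * g) = 1 := by rw [inv_mul_cancel, map_one]
      rwa [map_mul, h7, one_mul] at h8

end Sys

end Pool.Agent.Helper460_PR
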